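import Mathlib

/-!
# Varieties of Lie algebras solvable of index n over a prime field: definitions
-/

noncomputable section

namespace Pool.Agent.HIL

open Function

/-- left-normed commutator `[[...[a, b], ...], c]` of a list of elements (`0` for the empty list) -/
def lnorm {L : Type} [LieRing L] : List L → L
  | [] => 0
  | a :: l => l.foldl (fun u v => ⁅u, v⁆) a

/-- relatively free Lie algebra of rank `k` of the variety of Lie algebras solvable of index `n` -/
abbrev RelFreeLie (F : Type) [Field F] (n k : ℕ) : Type :=
  FreeLieAlgebra F (Fin k) ⧸ LieAlgebra.derivedSeries F (FreeLieAlgebra F (Fin k)) n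

/-- expressions for elements of a free Lie algebra over a prime field: formal sums of left-normed
monomials in the letters `x_0, ..., x_(k-1)`, the entry `((a, b), w)` standing for
`a / (b + 1)` times the left-normed commutator of the word `w` -/
abbrev LExpr (k : ℕ) : Type := List ((ℤ × ℕ) × List (Fin k))

/-- value of an expression -/
def LExpr.val (F : Type) [Field F] {k : ℕ} (e : LExpr k) : FreeLieAlgebra F (Fin k) :=
  (e.map fun t => ((t.1.1 : F) / ((t.1.2 : F) + 1)) •
    lnorm (t.2.map (FreeLieAlgebra.of F))).sum

/-- finitely presented in the variety of Lie algebras solvable of index `n` -/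
def FinPresLie (F : Type) [Field F] (n : ℕ) (H : Type) [LieRing H] [LieAlgebra F H] : Prop :=
  ∃ (k : ℕ) (R : Set (RelFreeLie F n k)), R.Finite ∧
    Nonempty (H ≃ₗ⁅F⁆ (RelFreeLie F n k ⧸ LieSubmodule.lieSpan F (RelFreeLie F n k) R))

/-- recursively presented in the variety of Lie algebras solvable of index `n` -/
def RecPresLie (F : Type) [Field F] (n : ℕ) (G : Type) [LieRing G] [LieAlgebra F G] : Prop :=
  ∃ (k : ℕ) (R : Set (LExpr k)), REPred (fun e => e ∈ R) ∧
    Nonempty (G ≃ₗ⁅F⁆ (RelFreeLie F n k ⧸ LieSubmodule.lieSpan F (RelFreeLie F n k)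
      ((fun e : LExpr k => (LieSubmodule.Quotient.mk (e.val F) : RelFreeLie F n k)) '' R)))

/-- the variety of Lie algebras over `F` solvable of index `n` is Higman -/
def HigmanLie (F : Type) [Field F] (n : ℕ) : Prop :=
  ∀ (G : Type) [LieRing G] [LieAlgebra F G], RecPresLie F n G →
    ∃ (H : Type) (_ : LieRing H) (_ : LieAlgebra F H), FinPresLie F n H ∧
      ∃ f : G →ₗ⁅F⁆ H, Injective f

end Pool.Agent.HIL
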