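import Pool.Agent.HIL.Neg

noncomputable section

namespace Pool.Agent.HIL

open Function Polynomial

attribute [local instance 100] LieRing.ofAssociativeRing

namespace MODELX

variable {k : Type} [Field k] {m : ℕ}

/-- entries vanish below the `s`-th diagonal -/
def Band (s : ℕ) (M : Matrix (Fin m) (Fin m) k[X]) : Prop :=
  ∀ p q : Fin m, q.val < p.val + s → M p q = 0

theorem Band.mul {s t : ℕ} {A B : Matrix (Fin m) (Fin m) k[X]} (hA : Band s A) (hB : Band t B) :
    Band (s + t) (A * B) := by
  intro p q hpq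
  rw [Matrix.mul_apply]
  apply Finset.sum_eq_zero
  intro r _
  by_cases h : r.val < p.val + s
  · rw [hA p r h, zero_mul]
  · rw [hB r q (by omega), mul_zero]

theorem Band.sub {s : ℕ} {A B : Matrix (Fin m) (Fin m) k[X]} (hA : Band s A) (hB : Band s B) :
    Band s (A - B) := by
  intro p q hpq
  rw [Matrix.sub_apply, hA p q hpq, hB p q hpq, sub_zero]

theorem Band.add {s : ℕ} {A B : Matrix (Fin m) (Fin m) k[X]} (hA : Band s A) (hB : Band s B) :
    Band s (A + B) := by
  intro p q hpq
  rw [Matrix.add_apply, hA p q hpq, hB p q hpq, add_zero]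

theorem Band.lie {s t : ℕ} {A B : Matrix (Fin m) (Fin m) k[X]} (hA : Band s A) (hB : Band t B) :
    Band (s + t) ⁅A, B⁆ := by
  rw [Ring.lie_def]
  exact (hA.mul hB).sub (by rw [add_comm]; exact hB.mul hA)

theorem Band.lie_one {A B : Matrix (Fin m) (Fin m) k[X]} (hA : Band 0 A) (hB : Band 0 B) :
    Band 1 ⁅A, B⁆ := by
  intro p q hpq
  by_cases h : q.val < p.val
  · exact hA.lie hB p q (by omega)
  · have hpq' : q = p := by
      apply Fin.ext; omega
    subst hpq'
    rw [Ring.lie_def, Matrix.sub_apply, Matrix.mul_apply, Matrix.mul_apply, ← Finset.sum_sub_distrib]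
    apply Finset.sum_eq_zero
    intro r _
    rcases lt_trichotomy r.val q.val with h1 | h1 | h1
    · rw [hA q r (by omega), hB q r (by omega)]; ring
    · have : r = q := Fin.ext h1
      subst this; ring
    · rw [hB r q (by omega), hA r q (by omega)]; ring

/-- upper triangular matrices -/
def UT (k : Type) [Field k] (m : ℕ) : LieSubalgebra k (Matrix (Fin m) (Fin m) k[X]) where
  carrier := {M | Band 0 M}
  add_mem' := fun ha hb => Band.add ha hb
  zero_mem' := fun _ _ _ => rfl
  smul_mem' := by
    intro c x hx p q hpq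
    rw [Matrix.smul_apply, hx p q hpq, smul_zero]
  lie_mem' := fun ha hb => Band.lie ha hb

/-- the ideals -/
def NN (k : Type) [Field k] (m s : ℕ) : LieIdeal k (UT k m) where
  carrier := {M | Band s M.1}
  add_mem' := fun ha hb => Band.add ha hb
  zero_mem' := fun _ _ _ => rfl
  smul_mem' := by
    intro c x hx p q hpq
    change (c • x.1) p q = 0
    rw [Matrix.smul_apply, hx p q hpq, smul_zero]
  lie_mem := by
    intro x y hy
    change Band s ⁅x.1, y.1⁆
    have := Band.lie x.2 hy
    rwa [zero_add] at this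

theorem ds_le (j : ℕ) : LieAlgebra.derivedSeries k (UT k m) (j + 1) ≤ NN k m (2 ^ j) := by
  induction j with
  | zero =>
    rw [LieAlgebra.derivedSeries_def, LieAlgebra.derivedSeriesOfIdeal_succ,
      LieSubmodule.lie_le_iff]
    intro x _ y _
    exact Band.lie_one x.2 y.2
  | succ j ih =>
    rw [LieAlgebra.derivedSeries_def, LieAlgebra.derivedSeriesOfIdeal_succ,
      LieSubmodule.lie_le_iff]
    intro x hx y hy
    have := Band.lie (ih hx) (ih hy)
    rw [← two_mul, ← pow_succ'] at this
    exact this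

theorem ds_bot (n : ℕ) (hn : 1 ≤ n) :
    LieAlgebra.derivedSeries k (UT k (2 ^ (n - 1))) n = ⊥ := by
  rw [eq_bot_iff]
  obtain ⟨j, rfl⟩ : ∃ j, n = j + 1 := ⟨n - 1, by omega⟩
  intro x hx
  have h := ds_le j hx
  rw [LieSubmodule.mem_bot]
  apply Subtype.ext
  ext1 p q
  have hq := q.2
  exact h p q (by simp only [Nat.add_sub_cancel] at hq; omega)

/-- matrix units -/
def E (m : ℕ) (i j : ℕ) (f : k[X]) : Matrix (Fin m) (Fin m) k[X] :=
  Matrix.of fun p q => if p.val = i ∧ q.val = j then f else 0

theorem E_mul (i j l : ℕ) (f g : k[X]) (hj : j < m) :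
    E m i j f * E m j l g = E m i l (f * g) := by
  ext1 p q
  rw [Matrix.mul_apply, Finset.sum_eq_single ⟨j, hj⟩]
  · simp only [E, Matrix.of_apply]
    by_cases h1 : p.val = i <;> by_cases h2 : q.val = l <;> simp [h1, h2]
  · intro r _ hr
    have : ¬ r.val = j := fun h => hr (Fin.ext h)
    simp [E, this]
  · intro h
    exact absurd (Finset.mem_univ _) h

theorem E_mul_zero (i j j' l : ℕ) (f g : k[X]) (hj : j ≠ j') :
    E m i j f * E m j' l g = 0 := by
  ext1 p q
  rw [Matrix.mul_apply]
  apply Finset.sum_eq_zero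
  intro r _
  simp only [E, Matrix.of_apply]
  by_cases h1 : r.val = j
  · have : ¬ r.val = j' := fun h => hj (h1.symm.trans h)
    simp [this]
  · simp [h1]

theorem E_band (i j : ℕ) (f : k[X]) (hij : i ≤ j) : Band 0 (E m i j f) := by
  intro p q hpq
  simp only [E, Matrix.of_apply]
  rw [if_neg]
  omega

theorem E_add (i j : ℕ) (f g : k[X]) : E m i j (f + g) = E m i j f + E m i j g := by
  ext1 p q
  simp only [E, Matrix.of_apply, Matrix.add_apply]
  split_ifs <;> simp

theorem E_smul (i j : ℕ) (c : k) (f : k[X]) : E m i j (c • f) = c • E m i j f := by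
  ext1 p q
  simp only [E, Matrix.of_apply, Matrix.smul_apply]
  split_ifs <;> simp

theorem E_neg (i j : ℕ) (f : k[X]) : E m i j (-f) = - E m i j f := by
  ext1 p q
  simp only [E, Matrix.of_apply, Matrix.neg_apply]
  split_ifs <;> simp

theorem E_lie (i j l : ℕ) (f g : k[X]) (hj : j < m) (hl : l ≠ i) :
    ⁅E m i j f, E m j l g⁆ = E m i l (f * g) := by
  rw [Ring.lie_def, E_mul _ _ _ _ _ hj, E_mul_zero _ _ _ _ _ _ hl, sub_zero]

/-- as an element of `UT` -/
def EU (m : ℕ) (i j : ℕ) (hij : i ≤ j) (f : k[X]) : UT k m := ⟨E m i j f, E_band i j f hij⟩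

/-- indices of letters -/
def hI (m : ℕ) (i : ℕ) : Fin (2 * m + 2) := if h : i < m then ⟨i + 2, by omega⟩ else 0
def eI (m : ℕ) (i : ℕ) : Fin (2 * m + 2) := if h : i < m then ⟨i + 2 + m, by omega⟩ else 0

/-- images of the letters -/
def th (k : Type) [Field k] (m : ℕ) (j : Fin (2 * m + 2)) : UT k m :=
  if j.val = 0 then EU m 0 0 le_rfl X
  else if j.val = 1 then EU m 0 1 (by omega) 1
  else if j.val < m + 2 then EU m (j.val - 2) (j.val - 2) le_rfl 1
  else EU m (j.val - 2 - m) (j.val - 2 - m + 1) (by omega) 1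

theorem th_h (i : ℕ) (hi : i < m) : (th k m (hI m i)).1 = E m i i 1 := by
  unfold th hI
  rw [dif_pos hi]
  simp only
  rw [if_neg (by omega), if_neg (by omega), if_pos (by omega)]
  simp [EU]

theorem th_e (i : ℕ) (hi : i < m) : (th k m (eI m i)).1 = E m i (i + 1) 1 := by
  unfold th eI
  rw [dif_pos hi]
  simp only
  rw [if_neg (by omega), if_neg (by omega), if_neg (by omega)]
  simp only [EU]
  have : i + 2 + m - 2 - m = i := by omega
  rw [this]

/-- elements of the derived series of the free Lie algebra -/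
def u (k : Type) [Field k] (m : ℕ) : ℕ → ℕ → FreeLieAlgebra k (Fin (2 * m + 2))
  | 0, i => ⁅FreeLieAlgebra.of k (hI m i), FreeLieAlgebra.of k (eI m i)⁆
  | s + 1, i => ⁅u k m s i, u k m s (i + 2 ^ s)⁆

theorem u_mem (s : ℕ) : ∀ i, u k m s i ∈
    LieAlgebra.derivedSeries k (FreeLieAlgebra k (Fin (2 * m + 2))) (s + 1) := by
  induction s with
  | zero =>
    intro i
    rw [LieAlgebra.derivedSeries_def, LieAlgebra.derivedSeriesOfIdeal_succ]
    exact LieSubmodule.lie_mem_lie (LieSubmodule.mem_top _) (LieSubmodule.mem_top _)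
  | succ s ih =>
    intro i
    rw [LieAlgebra.derivedSeries_def, LieAlgebra.derivedSeriesOfIdeal_succ]
    exact LieSubmodule.lie_mem_lie (ih i) (ih _)

theorem u_val (s : ℕ) : ∀ i, i + 2 ^ s < m →
    (FreeLieAlgebra.lift k (th k m) (u k m s i)).1 = E m i (i + 2 ^ s) 1 := by
  induction s with
  | zero =>
    intro i hi
    simp only [u, LieHom.map_lie, FreeLieAlgebra.lift_of_apply, LieSubalgebra.coe_bracket]
    rw [th_h i (by omega), th_e i (by omega), E_lie _ _ _ _ _ (by omega) (by omega)]
    simp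
  | succ s ih =>
    intro i hi
    have h2 : 2 ^ (s + 1) = 2 ^ s + 2 ^ s := by ring
    have hpos : 0 < 2 ^ s := by positivity
    simp only [u, LieHom.map_lie, LieSubalgebra.coe_bracket]
    rw [ih i (by omega), ih (i + 2 ^ s) (by omega), E_lie _ _ _ _ _ (by omega) (by omega)]
    rw [h2, ← add_assoc, mul_one]

theorem fold_val (hm : 0 < m) (i : ℕ) : ∀ v : UT k m, (∃ f, v.1 = E m 0 1 f) →
    ∃ f, ((List.replicate i (th k m 0)).foldl (fun u v => ⁅u, v⁆) v).1 = E m 0 1 f := by
  induction i with
  | zero => intro v hv; simpa using hv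
  | succ i ih =>
    rintro v ⟨f, hf⟩
    rw [List.replicate_succ, List.foldl_cons]
    apply ih
    refine ⟨-(X * f), ?_⟩
    have h0 : (th k m 0).1 = E m 0 0 X := by simp [th, EU]
    rw [LieSubalgebra.coe_bracket, hf, h0, ← lie_skew, E_lie _ _ _ _ _ hm (by omega), E_neg]

theorem aeval_val (hm : 0 < m) (p : k[X]) : ∀ (v : UT k m) (f : k[X]), v.1 = E m 0 1 f →
    (Polynomial.aeval (LieAlgebra.ad k (UT k m) (th k m 0) : Module.End k (UT k m)) p v).1 =
      E m 0 1 (p * f) := by
  have h0 : (th k m 0).1 = E m 0 0 X := by simp [th, EU]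
  have hpow : ∀ (n : ℕ) (v : UT k m) (f : k[X]), v.1 = E m 0 1 f →
      (((LieAlgebra.ad k (UT k m) (th k m 0) : Module.End k (UT k m)) ^ n) v).1 =
        E m 0 1 (X ^ n * f) := by
    intro n
    induction n with
    | zero => intro v f hf; simpa using hf
    | succ n ih =>
      intro v f hf
      rw [pow_succ', Module.End.mul_apply, LieAlgebra.ad_apply, LieSubalgebra.coe_bracket,
        ih v f hf, h0, E_lie _ _ _ _ _ hm (by omega)]
      congr 1
      ring
  induction p using Polynomial.induction_on' with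
  | add p q hp hq =>
    intro v f hf
    rw [map_add, LinearMap.add_apply, add_mul, E_add, ← hp v f hf, ← hq v f hf]
    rfl
  | monomial n c =>
    intro v f hf
    rw [Polynomial.aeval_monomial, Module.End.mul_apply, Module.algebraMap_end_apply]
    change c • (((LieAlgebra.ad k (UT k m) (th k m 0) : Module.End k (UT k m)) ^ n) v).1 = _
    rw [hpow n v f hf, ← E_smul]
    congr 1
    rw [← Polynomial.C_mul_X_pow_eq_monomial, mul_assoc, Polynomial.smul_eq_C_mul]

end MODELX

open MODELX in
theorem model_proof : Stmt_MODEL := by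
  intro k _ n hn
  set m := 2 ^ (n - 1) with hmdef
  have hm4 : 4 ≤ m := by
    calc 4 = 2 ^ 2 := by norm_num
      _ ≤ 2 ^ (n - 1) := Nat.pow_le_pow_right (by norm_num) (by omega)
  refine ⟨2 * m + 2, 0, 1, UT k m, inferInstance, inferInstance, th k m,
    fun j => u k m (j + 1) (2 ^ (j + 1) - 1), ds_bot n (by omega), ?_, ?_, ?_⟩
  · intro i
    have h1 : (th k m 1).1 = E m 0 1 1 := by simp [th, EU]
    simp only [List.map_cons, lnorm, List.map_append, List.map_replicate, List.map_nil,
      List.foldl_append, List.foldl_cons, List.foldl_nil]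
    obtain ⟨f, hf⟩ := fold_val (k := k) (m := m) (by omega) i (th k m 1) ⟨1, h1⟩
    apply Subtype.ext
    rw [LieSubalgebra.coe_bracket, hf, h1, Ring.lie_def, E_mul_zero _ _ _ _ _ _ (by omega),
      E_mul_zero _ _ _ _ _ _ (by omega)]
    simp
  · intro j
    exact u_mem (j + 1) _
  · intro p hp
    have h1 : (th k m 1).1 = E m 0 1 1 := by simp [th, EU]
    have h0 : (th k m 0).1 = E m 0 0 X := by simp [th, EU]
    have hb : ∀ j, j ≤ n - 2 → (brk (Polynomial.aeval
        (LieAlgebra.ad k (UT k m) (th k m 0) : Module.End k (UT k m)) p ⁅th k m 0, th k m 1⁆)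
        (fun j => FreeLieAlgebra.lift k (th k m) (u k m (j + 1) (2 ^ (j + 1) - 1))) j).1 =
        E m 0 (2 ^ (j + 1) - 1) (p * X) := by
      intro j
      induction j with
      | zero =>
        intro _
        simp only [brk]
        rw [aeval_val (by omega) p _ X]
        · norm_num
        · rw [LieSubalgebra.coe_bracket, h0, h1, E_lie _ _ _ _ _ (by omega) (by omega), mul_one]
      | succ j ih =>
        intro hj
        have hpow : 2 ^ (j + 2) ≤ m := Nat.pow_le_pow_right (by norm_num) (by omega)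
        have h2 : 2 ^ (j + 2) = 2 ^ (j + 1) + 2 ^ (j + 1) := by ring
        have h3 : 0 < 2 ^ (j + 1) := by positivity
        simp only [brk]
        rw [LieSubalgebra.coe_bracket, ih (by omega), u_val (j + 1) _ (by omega),
          E_lie _ _ _ _ _ (by omega) (by omega), mul_one]
        congr 1
        omega
    intro hzero
    have := hb (n - 2) le_rfl
    rw [hzero] at this
    have he : 2 ^ (n - 2 + 1) - 1 < m := by
      have : n - 2 + 1 = n - 1 := by omega
      rw [this]
      omega
    have h4 := congrFun (congrFun this ⟨0, by omega⟩) ⟨2 ^ (n - 2 + 1) - 1, he⟩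
    simp only [E, Matrix.of_apply, and_self, if_true] at h4
    have : p * X = 0 := h4.symm
    exact mul_ne_zero hp Polynomial.X_ne_zero this

end Pool.Agent.HIL
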