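import Pool.Agent.HIL.Neg

/-!
# Module N-CA: commutative algebra for the negative result in characteristic 2
-/

noncomputable section

namespace Pool.Agent.HIL

open scoped TensorProduct

namespace NCAX

section general
variable {k : Type} [Field k]

/-- a linear map from polynomials to a finite-dimensional space has a kernel -/
lemma exists_ker {V : Type} [AddCommGroup V] [Module k V] [FiniteDimensional k V]
    (f : Polynomial k →ₗ[k] V) : ∃ p : Polynomial k, p ≠ 0 ∧ f p = 0 := by
  by_contra h
  push Not at h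
  have hinj : Function.Injective f :=
    (injective_iff_map_eq_zero f).2 (fun p hp => by_contra (fun h0 => h p h0 hp))
  exact Polynomial.not_finite (Module.Finite.of_injective f hinj)

/-- Artin-Rees for a cyclic submodule -/
lemma artin {A : Type} [CommRing A] [IsNoetherianRing A] {W : Type} [AddCommGroup W]
    [Module A W] [Module.Finite A W] (I : Ideal A) (z : W) :
    ∃ N : ℕ, ∀ a : A, a • z ∈ (I ^ N • ⊤ : Submodule A W) → ∃ δ ∈ I, a • z = δ • z := by
  obtain ⟨c, hc⟩ := I.exists_pow_inf_eq_pow_smul (Submodule.span A {z})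
  refine ⟨c + 1, fun a ha => ?_⟩
  have h1 : a • z ∈ (I ^ (c + 1) • ⊤ : Submodule A W) ⊓ Submodule.span A {z} :=
    ⟨ha, Submodule.smul_mem _ _ (Submodule.mem_span_singleton_self z)⟩
  rw [hc (c + 1) (by omega)] at h1
  have h2 : a • z ∈ I • Submodule.span A {z} := by
    have h3 : I ^ (c + 1 - c) = I := by
      have : c + 1 - c = 1 := by omega
      rw [this, pow_one]
    rw [h3] at h1
    exact Submodule.smul_mono le_rfl inf_le_right h1
  obtain ⟨δ, hδ, h⟩ := Submodule.mem_smul_span_singleton.1 h2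
  exact ⟨δ, hδ, h.symm⟩

end general

section
variable {k : Type} [Field k] {S : Type} [CommRing S] [Algebra k S] {Z : Type} [AddCommGroup Z]
  [Module k Z] [Module S Z] [IsScalarTower k S Z]

variable (k S Z) in
/-- the action of `S ⊗ S` on `Z ⊗ Z` -/
def rho : (S ⊗[k] S) →ₐ[k] Module.End k (Z ⊗[k] Z) :=
  (Module.endTensorEndAlgHom (R := k) (S := k) (A := k) (M := Z) (N := Z)).comp
    (Algebra.TensorProduct.map (Algebra.lsmul k k Z) (Algebra.lsmul k k Z))

lemma rho_tmul (a b : S) (z w : Z) :
    rho k S Z (a ⊗ₜ b) (z ⊗ₜ[k] w) = (a • z) ⊗ₜ[k] (b • w) := rfl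

/-- contraction -/
def con (l : Z →ₗ[k] k) : Z ⊗[k] Z →ₗ[k] Z :=
  (TensorProduct.rid k Z).toLinearMap ∘ₗ LinearMap.lTensor Z l

lemma con_tmul (l : Z →ₗ[k] k) (a b : Z) : con l (a ⊗ₜ[k] b) = l b • a := by
  simp [con]

lemma eq_zero_of_con (u : Z ⊗[k] Z) (h : ∀ l : Z →ₗ[k] k, con l u = 0) : u = 0 := by
  classical
  let b := Module.Basis.ofVectorSpace k Z
  have key : ∀ (u : Z ⊗[k] Z) i, (TensorProduct.equivFinsuppOfBasisRight b u) i
      = con (b.coord i) u := by
    intro u i
    induction u using TensorProduct.induction_on with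
    | zero => simp
    | tmul x y => simp [con_tmul]
    | add x y hx hy => simp [hx, hy]
  apply (TensorProduct.equivFinsuppOfBasisRight b).injective
  rw [map_zero]
  ext i
  rw [key, h]
  rfl

lemma inj (X : S)
    (htf : ∀ p : Polynomial k, p ≠ 0 → ∀ z : Z, Polynomial.aeval X p • z = 0 → z = 0)
    (u : Z ⊗[k] Z) (hu : rho k S Z (X ⊗ₜ 1) u = rho k S Z (1 ⊗ₜ X) u) : u = 0 := by
  classical
  let V : Submodule k Z := Submodule.span k (Set.range (fun l : Z →ₗ[k] k => con l u))
  have hfd : FiniteDimensional k V := by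
    obtain ⟨F, hF⟩ := TensorProduct.exists_finset u
    have hle : V ≤ Submodule.span k (Prod.fst '' (F : Set (Z × Z))) := by
      refine Submodule.span_le.2 ?_
      rintro _ ⟨l, rfl⟩
      simp only [hF, map_sum]
      refine Submodule.sum_mem _ (fun i hi => ?_)
      rw [con_tmul]
      exact Submodule.smul_mem _ _ (Submodule.subset_span ⟨i, hi, rfl⟩)
    have : FiniteDimensional k (Submodule.span k (Prod.fst '' (F : Set (Z × Z)))) :=
      FiniteDimensional.span_of_finite k ((Finset.finite_toSet F).image _)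
    exact Submodule.finiteDimensional_of_le hle
  -- stability
  have hX1 : ∀ (l : Z →ₗ[k] k) (w : Z ⊗[k] Z), X • con l w = con l (rho k S Z (X ⊗ₜ 1) w) := by
    intro l w
    induction w using TensorProduct.induction_on with
    | zero => simp
    | tmul x y =>
      rw [rho_tmul, con_tmul, con_tmul, one_smul, smul_comm]
    | add x y hx hy => simp only [map_add, smul_add, hx, hy]
  have hX2 : ∀ (l : Z →ₗ[k] k) (w : Z ⊗[k] Z),
      con (l ∘ₗ (Algebra.lsmul k k Z X)) w = con l (rho k S Z (1 ⊗ₜ X) w) := by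
    intro l w
    induction w using TensorProduct.induction_on with
    | zero => simp
    | tmul x y =>
      rw [rho_tmul, con_tmul, con_tmul, one_smul]
      rfl
    | add x y hx hy => simp only [map_add, hx, hy]
  have hstab : ∀ v ∈ V, X • v ∈ V := by
    intro v hv
    induction hv using Submodule.span_induction with
    | mem x hx =>
      obtain ⟨l, rfl⟩ := hx
      refine Submodule.subset_span ⟨l ∘ₗ (Algebra.lsmul k k Z X), ?_⟩
      simp only []
      rw [hX2, hX1, hu]
    | zero => simp
    | add x y _ _ hx hy => rw [smul_add]; exact V.add_mem hx hy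
    | smul a x _ hx => rw [smul_comm]; exact V.smul_mem _ hx
  have hpoly : ∀ (q : Polynomial k) (v : Z), v ∈ V → Polynomial.aeval X q • v ∈ V := by
    intro q
    induction q using Polynomial.induction_on' with
    | add p q hp hq =>
      intro v hv
      rw [map_add, add_smul]
      exact V.add_mem (hp v hv) (hq v hv)
    | monomial n a =>
      intro v hv
      rw [Polynomial.aeval_monomial, mul_smul, algebraMap_smul]
      refine V.smul_mem _ ?_
      induction n with
      | zero => simpa using hv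
      | succ n ih =>
        rw [pow_succ', mul_smul]
        exact hstab _ ih
  have hV : ∀ v ∈ V, v = 0 := by
    intro v hv
    let f : Polynomial k →ₗ[k] V := LinearMap.codRestrict V
      ((LinearMap.toSpanSingleton S Z v).restrictScalars k ∘ₗ (Polynomial.aeval X).toLinearMap)
      (fun q => hpoly q v hv)
    obtain ⟨p, hp, hfp⟩ := exists_ker f
    refine htf p hp v ?_
    have := congrArg Subtype.val hfp
    exact this
  exact eq_zero_of_con u (fun l => hV _ (Submodule.subset_span ⟨l, rfl⟩))

/-- the last step -/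
lemma last (α : Z) (a : S ⊗[k] S) (ha : rho k S Z a (α ⊗ₜ α) = 0) :
    (Algebra.TensorProduct.lmul' k (S := S) a) • α = 0 := by
  let I : Ideal S := LinearMap.ker (LinearMap.toSpanSingleton S Z α)
  let i : (S ⧸ I) →ₗ[k] Z :=
    (Submodule.liftQ I (LinearMap.toSpanSingleton S Z α) le_rfl).restrictScalars k
  have hi : Function.Injective i := by
    have h := Submodule.ker_liftQ_eq_bot I (LinearMap.toSpanSingleton S Z α) le_rfl le_rfl
    have h' : Function.Injective (Submodule.liftQ I (LinearMap.toSpanSingleton S Z α) le_rfl) :=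
      LinearMap.ker_eq_bot.1 h
    exact h'
  let π : S →ₐ[k] (S ⧸ I) := Ideal.Quotient.mkₐ k I
  have h1 : ∀ a : S ⊗[k] S, rho k S Z a (α ⊗ₜ α)
      = TensorProduct.map i i (Algebra.TensorProduct.map π π a) := by
    intro a
    induction a using TensorProduct.induction_on with
    | zero => simp
    | tmul x y => rfl
    | add x y hx hy => simp only [map_add, LinearMap.add_apply, hx, hy]
  rw [h1] at ha
  have hinj : Function.Injective (TensorProduct.map i i) :=
    TensorProduct.map_injective_of_flat_flat i i hi hi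
  have h2 : Algebra.TensorProduct.map π π a = 0 := hinj (by rw [ha, map_zero])
  have h3 : ∀ a : S ⊗[k] S, Algebra.TensorProduct.lmul' k (S := S ⧸ I)
      (Algebra.TensorProduct.map π π a) = π (Algebra.TensorProduct.lmul' k (S := S) a) := by
    intro a
    induction a using TensorProduct.induction_on with
    | zero => simp
    | tmul x y => simp
    | add x y hx hy => simp only [map_add, hx, hy]
  have h4 := h3 a
  rw [h2, map_zero] at h4
  have h5 : Algebra.TensorProduct.lmul' k (S := S) a ∈ I :=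
    Ideal.Quotient.eq_zero_iff_mem.1 h4.symm
  exact h5

lemma dplus_eq [CharP k 2] (y : S) (w : Z ⊗[k] Z) :
    dplus (Algebra.lsmul k k Z y : Module.End k Z) w = rho k S Z (y ⊗ₜ 1 + 1 ⊗ₜ y) w := by
  rw [map_add]
  induction w using TensorProduct.induction_on with
  | zero => simp
  | tmul a b =>
    rw [LinearMap.add_apply, rho_tmul, rho_tmul]
    simp [dplus]
  | add x y hx hy => simp only [map_add, hx, hy]

lemma diag_mem [CharP k 2] (y : S) :
    (y ⊗ₜ 1 + 1 ⊗ₜ y : S ⊗[k] S) ∈ RingHom.ker (Algebra.TensorProduct.lmul' k (S := S)) := by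
  rw [RingHom.mem_ker, map_add]
  simp only [Algebra.TensorProduct.lmul'_apply_tmul, mul_one, one_mul]
  have h2 : (2 : k) = 0 := by
    have := CharP.cast_eq_zero k 2
    exact_mod_cast this
  have : y + y = (2 : k) • y := by rw [two_smul]
  rw [this, h2, zero_smul]

end

section main
variable {k : Type} [Field k] [CharP k 2] {S : Type} [CommRing S] [Algebra k S]
    [Algebra.FiniteType k S] {Z : Type} [AddCommGroup Z] [Module k Z] [Module S Z]
    [IsScalarTower k S Z] [Module.Finite S Z]

variable (k S Z) in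
/-- module structure -/
@[reducible] def modW : Module (S ⊗[k] S) (Z ⊗[k] Z) :=
  Module.compHom _ (rho k S Z).toRingHom

theorem main (X : S) (d : ℕ) (y : Fin d → S) (α : Z) (hα : α ≠ 0)
    (htf : ∀ p : Polynomial k, p ≠ 0 → ∀ z : Z, Polynomial.aeval X p • z = 0 → z = 0)
    (hN : ∀ N : ℕ, ∃ U : Submodule k (Z ⊗[k] Z), FiniteDimensional k U ∧
      ∀ i j : ℕ, (X ^ i • α) ⊗ₜ[k] (X ^ j • α) - (X ^ j • α) ⊗ₜ[k] (X ^ i • α) ∈
        U ⊔ DN (fun i => Algebra.lsmul k k Z (y i)) N) : False := by
  classical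
  let _ : Module (S ⊗[k] S) (Z ⊗[k] Z) := modW k S Z
  have hsm : ∀ (a : S ⊗[k] S) (w : Z ⊗[k] Z), a • w = rho k S Z a w := fun a w => rfl
  have : IsScalarTower k (S ⊗[k] S) (Z ⊗[k] Z) := ⟨fun c a w => by
    rw [hsm, hsm, map_smul, LinearMap.smul_apply]⟩
  have : IsNoetherianRing (S ⊗[k] S) := by
    have h1 : Algebra.FiniteType S (S ⊗[k] S) := Algebra.FiniteType.baseChange S
    have h2 : Algebra.FiniteType k (S ⊗[k] S) := Algebra.FiniteType.trans (S := S) inferInstance h1
    exact Algebra.FiniteType.isNoetherianRing k (S ⊗[k] S)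
  have : Module.Finite (S ⊗[k] S) (Z ⊗[k] Z) := by
    obtain ⟨G, hG⟩ := (Module.finite_def.1 (inferInstance : Module.Finite S Z))
    refine ⟨⟨Finset.image₂ (fun a b => a ⊗ₜ[k] b) G G, ?_⟩⟩
    rw [eq_top_iff]
    intro w _
    induction w using TensorProduct.induction_on with
    | zero => exact Submodule.zero_mem _
    | add x y hx hy => exact Submodule.add_mem _ (hx trivial) (hy trivial)
    | tmul a b =>
      rename_i hw
      clear hw
      have ha : a ∈ Submodule.span S (G : Set Z) := by rw [hG]; trivial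
      have hb : b ∈ Submodule.span S (G : Set Z) := by rw [hG]; trivial
      induction ha using Submodule.span_induction with
      | zero => rw [TensorProduct.zero_tmul]; exact Submodule.zero_mem _
      | add x y _ _ hx hy => rw [TensorProduct.add_tmul]; exact Submodule.add_mem _ hx hy
      | smul c x _ hx =>
        have : (c • x) ⊗ₜ[k] b = (c ⊗ₜ 1 : S ⊗[k] S) • (x ⊗ₜ[k] b) := by
          rw [hsm, rho_tmul, one_smul]
        rw [this]
        exact Submodule.smul_mem _ _ hx
      | mem x hx =>
        induction hb using Submodule.span_induction with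
        | zero => rw [TensorProduct.tmul_zero]; exact Submodule.zero_mem _
        | add x y _ _ hx hy => rw [TensorProduct.tmul_add]; exact Submodule.add_mem _ hx hy
        | smul c y _ hy =>
          have : x ⊗ₜ[k] (c • y) = (1 ⊗ₜ c : S ⊗[k] S) • (x ⊗ₜ[k] y) := by
            rw [hsm, rho_tmul, one_smul]
          rw [this]
          exact Submodule.smul_mem _ _ hy
        | mem y hy =>
          refine Submodule.subset_span ?_
          rw [Finset.coe_image₂]
          exact ⟨x, hx, y, hy, rfl⟩
  let D : Ideal (S ⊗[k] S) := RingHom.ker (Algebra.TensorProduct.lmul' k (S := S))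
  -- DN in D^N
  have hDN : ∀ N, DN (fun i => (Algebra.lsmul k k Z (y i) : Module.End k Z)) N ≤
      (D ^ N • (⊤ : Submodule (S ⊗[k] S) (Z ⊗[k] Z))).restrictScalars k := by
    intro N
    induction N with
    | zero =>
      intro w _
      simp
    | succ N ih =>
      refine iSup_le (fun i => ?_)
      rintro _ ⟨w, hw, rfl⟩
      rw [dplus_eq, ← hsm, Submodule.restrictScalars_mem, pow_succ', Submodule.mul_smul]
      exact Submodule.smul_mem_smul (diag_mem (y i)) (ih hw)
  let st : S ⊗[k] S := X ⊗ₜ X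
  let z : Z ⊗[k] Z := (X ⊗ₜ 1 - 1 ⊗ₜ X : S ⊗[k] S) • (α ⊗ₜ[k] α)
  obtain ⟨N, hAR⟩ := artin D z
  obtain ⟨U, hU, hUm⟩ := hN N
  -- powers
  have hpow : ∀ i : ℕ, (st ^ i) • z = (X ^ (i + 1) • α) ⊗ₜ[k] (X ^ i • α)
      - (X ^ i • α) ⊗ₜ[k] (X ^ (i + 1) • α) := by
    intro i
    have h1 : st ^ i = (X ^ i) ⊗ₜ (X ^ i) := Algebra.TensorProduct.tmul_pow X X i
    have h2 : (st ^ i) * (X ⊗ₜ 1 - 1 ⊗ₜ X : S ⊗[k] S) =
        (X ^ (i + 1)) ⊗ₜ (X ^ i) - (X ^ i) ⊗ₜ (X ^ (i + 1)) := by
      rw [h1, mul_sub, Algebra.TensorProduct.tmul_mul_tmul, Algebra.TensorProduct.tmul_mul_tmul,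
        mul_one, pow_succ]
    show (st ^ i) • ((X ⊗ₜ 1 - 1 ⊗ₜ X : S ⊗[k] S) • (α ⊗ₜ[k] α)) = _
    rw [← mul_smul, h2, sub_smul, hsm, hsm, rho_tmul, rho_tmul]
  let E : Submodule k (Z ⊗[k] Z) := DN (fun i => (Algebra.lsmul k k Z (y i) : Module.End k Z)) N
  have hmem : ∀ q : Polynomial k, E.mkQ ((Polynomial.aeval st q) • z) ∈ U.map E.mkQ := by
    intro q
    induction q using Polynomial.induction_on' with
    | add p q hp hq =>
      rw [map_add, add_smul, map_add]
      exact Submodule.add_mem _ hp hq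
    | monomial n a =>
      rw [Polynomial.aeval_monomial, mul_smul, algebraMap_smul, map_smul]
      refine Submodule.smul_mem _ _ ?_
      rw [hpow]
      have h1 := hUm (n + 1) n
      have h2 : E.mkQ ((X ^ (n + 1) • α) ⊗ₜ[k] (X ^ n • α)
        - (X ^ n • α) ⊗ₜ[k] (X ^ (n + 1) • α)) ∈ (U ⊔ E).map E.mkQ :=
        Submodule.mem_map_of_mem h1
      rw [Submodule.map_sup] at h2
      have h3 : E.map E.mkQ = ⊥ := by
        rw [Submodule.mkQ_map_self]
      rw [h3, sup_bot_eq] at h2
      exact h2
  have hfd : FiniteDimensional k (U.map E.mkQ) := inferInstance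
  let f : Polynomial k →ₗ[k] (U.map E.mkQ) := LinearMap.codRestrict _
    (E.mkQ ∘ₗ ((LinearMap.toSpanSingleton (S ⊗[k] S) (Z ⊗[k] Z) z).restrictScalars k ∘ₗ
      (Polynomial.aeval st).toLinearMap)) hmem
  obtain ⟨p, hp, hfp⟩ := exists_ker f
  have h1 : (Polynomial.aeval st p) • z ∈ E := by
    have h2 : E.mkQ ((Polynomial.aeval st p) • z) = 0 := congrArg Subtype.val hfp
    exact (Submodule.Quotient.mk_eq_zero E).1 h2
  have h2 : (Polynomial.aeval st p) • z ∈ (D ^ N • (⊤ : Submodule (S ⊗[k] S) (Z ⊗[k] Z))) :=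
    hDN N h1
  obtain ⟨δ, hδ, h3⟩ := hAR _ h2
  let a : S ⊗[k] S := Polynomial.aeval st p - δ
  have h4 : a • z = 0 := by
    show (Polynomial.aeval st p - δ) • z = 0
    rw [sub_smul, h3, sub_self]
  have h5 : rho k S Z a (α ⊗ₜ[k] α) = 0 := by
    refine inj X htf _ ?_
    rw [← sub_eq_zero, ← hsm, ← hsm, ← hsm, ← sub_smul, ← mul_smul, mul_comm, mul_smul]
    exact h4
  have h6 := last α a h5
  have h7 : Algebra.TensorProduct.lmul' k (S := S) a
      = Polynomial.aeval X (p.comp (Polynomial.X ^ 2)) := by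
    have h8 : Algebra.TensorProduct.lmul' k (S := S) δ = 0 := hδ
    show Algebra.TensorProduct.lmul' k (S := S) (Polynomial.aeval st p - δ) = _
    rw [map_sub, h8, sub_zero, ← Polynomial.aeval_algHom_apply, Polynomial.aeval_comp]
    have h9 : Algebra.TensorProduct.lmul' k (S := S) st
        = Polynomial.aeval X ((Polynomial.X : Polynomial k) ^ 2) := by
      show Algebra.TensorProduct.lmul' k (S := S) (X ⊗ₜ X) = _
      rw [Algebra.TensorProduct.lmul'_apply_tmul]
      simp [pow_two]
    rw [h9]
  rw [h7] at h6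
  refine hα (htf _ ?_ α h6)
  intro h0
  have h9 := (Polynomial.comp_eq_zero_iff).1 h0
  rcases h9 with h9 | ⟨_, h9⟩
  · exact hp h9
  · have h10 := congrArg Polynomial.natDegree h9
    simp at h10

end main

end NCAX

theorem nca_proof : Stmt_CA := by
  intro k _ _ S _ _ _ Z _ _ _ _ _ X d y α hα htf hN
  exact NCAX.main X d y α hα htf hN

end Pool.Agent.HIL
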