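import Mathlib
import Pool.Agent.HIL.Defs

/-!
# Characteristic 2: the varieties are not Higman.  Module statements.
-/

noncomputable section

namespace Pool.Agent.HIL

open Function
open scoped TensorProduct

section
variable {k : Type} [Field k]

/-- `y ⊗ 1 + 1 ⊗ y` -/
def dplus {Z : Type} [AddCommGroup Z] [Module k Z] (y : Module.End k Z) :
    Module.End k (Z ⊗[k] Z) :=
  TensorProduct.map y LinearMap.id + TensorProduct.map LinearMap.id y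

/-- sums of products of `N` operators `y_i ⊗ 1 + 1 ⊗ y_i` applied to arbitrary elements -/
def DN {Z : Type} [AddCommGroup Z] [Module k Z] {σ : Type} (y : σ → Module.End k Z) :
    ℕ → Submodule k (Z ⊗[k] Z)
  | 0 => ⊤
  | N + 1 => ⨆ i, (DN y N).map (dplus (y i))

/-- linear combinations of operators -/
def act {Z : Type} [AddCommGroup Z] [Module k Z] {d : ℕ} (Y : Fin d → Module.End k Z)
    (v : Fin d → k) : Module.End k Z := ∑ i, v i • Y i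

/-- `ab` is the abelianisation of the free Lie algebra -/
def IsAb {d : ℕ} (ab : FreeLieAlgebra k (Fin d) →ₗ[k] (Fin d → k)) : Prop :=
  (∀ i, ab (FreeLieAlgebra.of k i) = Pi.single i 1) ∧
    ∀ f g : FreeLieAlgebra k (Fin d), ab ⁅f, g⁆ = 0

end

/-- commutative algebra -/
def Stmt_CA : Prop :=
  ∀ (k : Type) [Field k] [CharP k 2] (S : Type) [CommRing S] [Algebra k S]
    [Algebra.FiniteType k S] (Z : Type) [AddCommGroup Z] [Module k Z] [Module S Z]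
    [IsScalarTower k S Z] [Module.Finite S Z] (X : S) (d : ℕ) (y : Fin d → S) (α : Z), α ≠ 0 →
    (∀ p : Polynomial k, p ≠ 0 → ∀ z : Z, Polynomial.aeval X p • z = 0 → z = 0) →
    (∀ N : ℕ, ∃ U : Submodule k (Z ⊗[k] Z), FiniteDimensional k U ∧
      ∀ i j : ℕ, (X ^ i • α) ⊗ₜ[k] (X ^ j • α) - (X ^ j • α) ⊗ₜ[k] (X ^ i • α) ∈
        U ⊔ DN (fun i => Algebra.lsmul k k Z (y i)) N) → False

/-- the homomorphism from the free Lie algebra to `(Z + Z ⊗ Z) ⋊ k^d` -/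
def Stmt_LA : Prop :=
  ∀ (k : Type) [Field k] [CharP k 2] (d : ℕ) (Z : Type) [AddCommGroup Z] [Module k Z]
    (Y : Fin d → Module.End k Z), (∀ i j, Commute (Y i) (Y j)) → ∀ τ : Fin d → Z,
    ∃ (Φ₁ : FreeLieAlgebra k (Fin d) →ₗ[k] Z) (Φ₂ : FreeLieAlgebra k (Fin d) →ₗ[k] Z ⊗[k] Z)
      (ab : FreeLieAlgebra k (Fin d) →ₗ[k] (Fin d → k)), IsAb ab ∧
      (∀ i, Φ₁ (FreeLieAlgebra.of k i) = τ i) ∧ (∀ i, Φ₂ (FreeLieAlgebra.of k i) = 0) ∧
      (∀ f g, Φ₁ ⁅f, g⁆ = act Y (ab f) (Φ₁ g) - act Y (ab g) (Φ₁ f)) ∧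
      (∀ f g, Φ₂ ⁅f, g⁆ = Φ₁ f ⊗ₜ[k] Φ₁ g - Φ₁ g ⊗ₜ[k] Φ₁ f +
        dplus (act Y (ab f)) (Φ₂ g) - dplus (act Y (ab g)) (Φ₂ f))

/-- consequences of relations, modulo products of operators -/
def Stmt_LB : Prop :=
  Stmt_LA → ∀ (k : Type) [Field k] [CharP k 2] (d : ℕ) (Z : Type) [AddCommGroup Z] [Module k Z]
    (Y : Fin d → Module.End k Z), (∀ i j, Commute (Y i) (Y j)) →
    ∀ (ab : FreeLieAlgebra k (Fin d) →ₗ[k] (Fin d → k)), IsAb ab →
    ∀ (ψ : FreeLieAlgebra k (Fin d) →ₗ[k] Z),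
    (∀ f g, ψ ⁅f, g⁆ = act Y (ab f) (ψ g) - act Y (ab g) (ψ f)) →
    ∀ (R : Set (FreeLieAlgebra k (Fin d))), R.Finite →
    (∀ r ∈ LieSubmodule.lieSpan k (FreeLieAlgebra k (Fin d)) R, ψ r = 0) →
    ∀ n : ℕ, 3 ≤ n → ∀ N : ℕ, ∃ U : Submodule k (Z ⊗[k] Z), FiniteDimensional k U ∧
      ∀ u v : FreeLieAlgebra k (Fin d), ab u = 0 → ab v = 0 →
        ⁅u, v⁆ ∈ LieSubmodule.lieSpan k (FreeLieAlgebra k (Fin d)) R ⊔
          LieAlgebra.derivedSeries k (FreeLieAlgebra k (Fin d)) n →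
        ψ u ⊗ₜ[k] ψ v - ψ v ⊗ₜ[k] ψ u ∈ U ⊔ DN Y N

/-- the module `H' / H''` modulo its torsion -/
def Stmt_MOD : Prop :=
  ∀ (k : Type) [Field k] (d : ℕ) (H : Type) [LieRing H] [LieAlgebra k H] (h : Fin d → H),
    Surjective (FreeLieAlgebra.lift k h) → ∀ x a : H,
    (∀ p : Polynomial k, p ≠ 0 →
      Polynomial.aeval (LieAlgebra.ad k H x : Module.End k H) p ⁅x, a⁆ ∉
        LieAlgebra.derivedSeries k H 2) →
    ∃ (S : Type) (_ : CommRing S) (_ : Algebra k S) (_ : Algebra.FiniteType k S) (Z : Type)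
      (_ : AddCommGroup Z) (_ : Module k Z) (_ : Module S Z) (_ : IsScalarTower k S Z)
      (_ : Module.Finite S Z) (X : S) (y : Fin d → S) (ψ : H →ₗ[k] Z)
      (ab : FreeLieAlgebra k (Fin d) →ₗ[k] (Fin d → k)), IsAb ab ∧
      (∀ f g, ψ (FreeLieAlgebra.lift k h ⁅f, g⁆) =
        act (fun i => (Algebra.lsmul k k Z (y i) : Module.End k Z)) (ab f)
          (ψ (FreeLieAlgebra.lift k h g)) -
        act (fun i => (Algebra.lsmul k k Z (y i) : Module.End k Z)) (ab g)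
          (ψ (FreeLieAlgebra.lift k h f))) ∧
      (∀ u, ψ ⁅x, u⁆ = X • ψ u) ∧ ψ a ≠ 0 ∧
      ∀ p : Polynomial k, p ≠ 0 → ∀ z : Z, Polynomial.aeval X p • z = 0 → z = 0

/-- iterated brackets `[[b, g 0], g 1], ...` -/
def brk {L : Type} [LieRing L] (b : L) (g : ℕ → L) : ℕ → L
  | 0 => b
  | j + 1 => ⁅brk b g j, g j⁆

/-- upper triangular matrices over `k[λ]` -/
def Stmt_MODEL : Prop :=
  ∀ (k : Type) [Field k] (n : ℕ), 3 ≤ n →
    ∃ (K : ℕ) (ix ia : Fin K) (T : Type) (_ : LieRing T) (_ : LieAlgebra k T) (θ : Fin K → T)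
      (g : ℕ → FreeLieAlgebra k (Fin K)),
      LieAlgebra.derivedSeries k T n = ⊥ ∧
      (∀ i : ℕ, lnorm ((ia :: (List.replicate i ix ++ [ia])).map θ) = 0) ∧
      (∀ j, g j ∈ LieAlgebra.derivedSeries k (FreeLieAlgebra k (Fin K)) (j + 2)) ∧
      ∀ p : Polynomial k, p ≠ 0 →
        brk (Polynomial.aeval (LieAlgebra.ad k T (θ ix) : Module.End k T) p ⁅θ ix, θ ia⁆)
          (fun j => FreeLieAlgebra.lift k θ (g j)) (n - 2) ≠ 0

/-- the set of relators is recursively enumerable -/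
def Stmt_RE : Prop :=
  ∀ (K : ℕ) (ix ia : Fin K), REPred (fun e : LExpr K => e ∈ Set.range (fun i : ℕ =>
    ([((1, 0), ia :: (List.replicate i ix ++ [ia]))] : LExpr K)))

/-- assembly -/
def Stmt_NegAsm : Prop :=
  Stmt_CA → Stmt_LA → Stmt_LB → Stmt_MOD → Stmt_MODEL → Stmt_RE →
    ∀ n : ℕ, 3 ≤ n → ¬ HigmanLie (ZMod 2) n

end Pool.Agent.HIL
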