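import Mathlib
import Pool.Agent.HIL.Neg

/-!
The module `H' / H''` modulo its torsion.
-/

noncomputable section

namespace Pool.Agent.HIL
namespace ModX

open Function

section gen
variable {k : Type} [Field k] {d : ℕ}

/-- a Lie subalgebra containing generators is everything -/
theorem sub_top {L : Type} [LieRing L] [LieAlgebra k L] {h : Fin d → L}
    (hs : Surjective (FreeLieAlgebra.lift k h)) (K : LieSubalgebra k L) (hK : ∀ i, h i ∈ K)
    (u : L) : u ∈ K := by
  have e : FreeLieAlgebra.lift k h =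
      K.incl.comp (FreeLieAlgebra.lift k (fun i => (⟨h i, hK i⟩ : K))) := by
    apply FreeLieAlgebra.hom_ext
    intro i
    simp
  obtain ⟨f, rfl⟩ := hs u
  rw [e]
  exact (FreeLieAlgebra.lift k (fun i => (⟨h i, hK i⟩ : K)) f).2

theorem of_surj :
    Surjective (FreeLieAlgebra.lift k (FreeLieAlgebra.of k : Fin d → FreeLieAlgebra k (Fin d))) := by
  have e : FreeLieAlgebra.lift k (FreeLieAlgebra.of k : Fin d → FreeLieAlgebra k (Fin d)) =
      LieHom.id := by
    apply FreeLieAlgebra.hom_ext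
    intro i
    simp
  intro u
  exact ⟨u, by rw [e]; rfl⟩

/-- the abelianisation -/
theorem exists_ab : ∃ ab : FreeLieAlgebra k (Fin d) →ₗ[k] (Fin d → k), IsAb ab := by
  let i1 : LieRing (Fin d → k) :=
    { bracket := fun _ _ => 0
      add_lie := fun _ _ _ => (add_zero _).symm
      lie_add := fun _ _ _ => (add_zero _).symm
      lie_self := fun _ => rfl
      leibniz_lie := fun _ _ _ => (add_zero _).symm }
  let i2 : LieAlgebra k (Fin d → k) :=
    { lie_smul := fun _ _ _ => (smul_zero _).symm }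
  let φ : FreeLieAlgebra k (Fin d) →ₗ⁅k⁆ (Fin d → k) :=
    FreeLieAlgebra.lift k (fun i : Fin d => (Pi.single i 1 : Fin d → k))
  refine ⟨(φ : FreeLieAlgebra k (Fin d) →ₗ[k] (Fin d → k)), ?_, ?_⟩
  · intro i
    show φ (FreeLieAlgebra.of k i) = _
    exact FreeLieAlgebra.lift_of_apply _ i
  · intro f g
    show φ ⁅f, g⁆ = 0
    rw [LieHom.map_lie]
    rfl

/-- operators and polynomials -/
theorem aeval_comm {M N : Type} [AddCommGroup M] [Module k M] [AddCommGroup N] [Module k N]
    (f : M →ₗ[k] N) (A : Module.End k M) (B : Module.End k N) (h : ∀ m, f (A m) = B (f m))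
    (p : Polynomial k) (m : M) : f (Polynomial.aeval A p m) = Polynomial.aeval B p (f m) := by
  have hn : ∀ (n : ℕ) (m : M), f ((A ^ n) m) = (B ^ n) (f m) := by
    intro n
    induction n with
    | zero => intro m; simp
    | succ n ih =>
      intro m
      rw [pow_succ', pow_succ', Module.End.mul_apply, Module.End.mul_apply, h, ih]
  induction p using Polynomial.induction_on' with
  | add p q hp hq => simp [hp, hq]
  | monomial n c => simp [Polynomial.aeval_monomial, hn]

/-- a commutative algebra acting through given commuting operators -/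
theorem exists_S {M : Type} [AddCommGroup M] [Module k M] (T : Fin d → Module.End k M)
    (hT : ∀ i j, Commute (T i) (T j)) :
    ∃ (S : Type) (_ : CommRing S) (_ : Algebra k S) (_ : Algebra.FiniteType k S)
      (_ : Module S M) (_ : IsScalarTower k S M) (y : Fin d → S), ∀ i m, y i • m = T i m := by
  have hc : ∀ a ∈ Set.range T, ∀ b ∈ Set.range T, a * b = b * a := by
    rintro _ ⟨i, rfl⟩ _ ⟨j, rfl⟩
    exact hT i j
  refine ⟨Algebra.adjoin k (Set.range T), Algebra.adjoinCommRingOfComm k hc, inferInstance, ?_,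
    inferInstance, inferInstance, fun i => ⟨T i, Algebra.subset_adjoin ⟨i, rfl⟩⟩, fun i m => rfl⟩
  have hfg : (Algebra.adjoin k (Set.range T)).FG := by
    have := Subalgebra.fg_adjoin_finset (R := k) (Set.finite_range T).toFinset
    rwa [Set.Finite.coe_toFinset] at this
  exact (Subalgebra.fg_iff_finiteType _).1 hfg

end gen

section metab
variable {k : Type} [Field k] {d : ℕ} {Q : Type} [LieRing Q] [LieAlgebra k Q]

variable (k Q) in
/-- the derived algebra -/
abbrev DD : LieIdeal k Q := LieAlgebra.derivedSeries k Q 1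

theorem mem_DD (u v : Q) : ⁅u, v⁆ ∈ DD k Q :=
  LieSubmodule.lie_mem_lie (LieSubmodule.mem_top u) (LieSubmodule.mem_top v)

theorem DD_ind {P : Q → Prop} (h0 : P 0) (hb : ∀ u v : Q, P ⁅u, v⁆)
    (ha : ∀ u v : Q, P u → P v → P (u + v)) (hs : ∀ (c : k) (u : Q), P u → P (c • u))
    {m : Q} (hm : m ∈ DD k Q) : P m := by
  have h1 : m ∈ (Submodule.span k {m | ∃ x ∈ (⊤ : LieIdeal k Q), ∃ n ∈ (⊤ : LieIdeal k Q), ⁅x, n⁆ = m}) := by
    rw [← LieSubmodule.lieIdeal_oper_eq_linear_span']
    exact hm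
  clear hm
  induction h1 using Submodule.span_induction with
  | mem x hx =>
    obtain ⟨u, -, v, -, rfl⟩ := hx
    exact hb u v
  | zero => exact h0
  | add u v _ _ h1 h2 => exact ha u v h1 h2
  | smul c u _ h1 => exact hs c u h1

/-- the algebra is metabelian -/
def MAb (Q : Type) [LieRing Q] : Prop := ∀ a b c e : Q, ⁅⁅a, b⁆, ⁅c, e⁆⁆ = 0

theorem MAb.zero (hm : MAb Q) {m m' : Q} (h : m ∈ DD k Q) (h' : m' ∈ DD k Q) : ⁅m, m'⁆ = 0 := by
  refine DD_ind (P := fun m => ⁅m, m'⁆ = (0 : Q)) (zero_lie _) ?_ ?_ ?_ h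
  · intro u v
    refine DD_ind (P := fun m' => ⁅⁅u, v⁆, m'⁆ = (0 : Q)) (lie_zero _) ?_ ?_ ?_ h'
    · intro a b
      exact hm _ _ _ _
    · intro a b ha hb
      rw [lie_add, ha, hb, add_zero]
    · intro c a ha
      rw [lie_smul, ha, smul_zero]
  · intro a b ha hb
    rw [add_lie, ha, hb, add_zero]
  · intro c a ha
    rw [smul_lie, ha, smul_zero]

/-- the bracket with values in the derived algebra -/
def br (u : Q) : Q →ₗ[k] DD k Q where
  toFun v := ⟨⁅u, v⁆, mem_DD u v⟩
  map_add' a b := Subtype.ext (lie_add u a b)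
  map_smul' c a := Subtype.ext (lie_smul c u a)

theorem br_coe (u v : Q) : ((br u v : DD k Q) : Q) = ⁅u, v⁆ := rfl

theorem br_lie (u v w : Q) : (br u ⁅v, w⁆ : DD k Q) = ⁅v, (br u w : DD k Q)⁆ - ⁅w, (br u v : DD k Q)⁆ := by
  apply Subtype.ext
  show ⁅u, ⁅v, w⁆⁆ = ⁅v, ⁅u, w⁆⁆ - ⁅w, ⁅u, v⁆⁆
  rw [leibniz_lie u v w, ← lie_skew w ⁅u, v⁆]
  abel

theorem br_skew (u v : Q) : (br u v : DD k Q) = - br v u := by
  apply Subtype.ext
  show ⁅u, v⁆ = - ⁅v, u⁆
  rw [lie_skew]

/-- the action of an element on the derived algebra -/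
def TT (u : Q) : Module.End k (DD k Q) where
  toFun m := ⁅u, m⁆
  map_add' a b := lie_add u a b
  map_smul' c a := lie_smul c u a

theorem T_comm (hm : MAb Q) (u v : Q) : Commute (TT (k := k) u) (TT v) := by
  apply LinearMap.ext
  intro m
  show ⁅u, ⁅v, m⁆⁆ = ⁅v, ⁅u, m⁆⁆
  apply Subtype.ext
  show ⁅u, ⁅v, (m : Q)⁆⁆ = ⁅v, ⁅u, (m : Q)⁆⁆
  rw [leibniz_lie u v (m : Q), hm.zero (mem_DD u v) m.2, zero_add]

section act
variable {g : Fin d → Q} {S : Type} [CommRing S] [Algebra k S] [Module S (DD k Q)]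
  [IsScalarTower k S (DD k Q)] {y : Fin d → S}

theorem act_eq (hm : MAb Q) (hy : ∀ i (m : DD k Q), y i • m = ⁅g i, m⁆)
    {ab : FreeLieAlgebra k (Fin d) →ₗ[k] (Fin d → k)} (hab : IsAb ab)
    (f : FreeLieAlgebra k (Fin d)) (m : DD k Q) :
    (∑ i, ab f i • y i) • m = ⁅FreeLieAlgebra.lift k g f, m⁆ := by
  let K : LieSubalgebra k (FreeLieAlgebra k (Fin d)) :=
    { carrier := {f | ∀ m : DD k Q, (∑ i, ab f i • y i) • m = ⁅FreeLieAlgebra.lift k g f, m⁆}
      add_mem' := by
        intro a b ha hb m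
        have h1 := ha m
        have h2 := hb m
        simp only [map_add, Pi.add_apply, add_smul, Finset.sum_add_distrib, add_lie]
        rw [h1, h2]
      zero_mem' := by
        intro m
        simp
      smul_mem' := by
        intro c a ha m
        have h1 := ha m
        simp only [map_smul, Pi.smul_apply, smul_eq_mul, smul_lie]
        rw [← h1, ← smul_assoc, Finset.smul_sum]
        simp only [smul_smul]
      lie_mem' := by
        intro a b _ _ m
        rw [hab.2]
        simp only [Pi.zero_apply, zero_smul, Finset.sum_const_zero]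
        apply Subtype.ext
        rw [LieHom.map_lie]
        show (0 : Q) = ⁅⁅FreeLieAlgebra.lift k g a, FreeLieAlgebra.lift k g b⁆, (m : Q)⁆
        rw [hm.zero (mem_DD _ _) m.2] }
  refine sub_top of_surj K (fun i => ?_) f m
  intro m
  rw [hab.1, FreeLieAlgebra.lift_of_apply, ← hy]
  congr 1
  rw [Finset.sum_eq_single i]
  · simp
  · intro j _ hj
    rw [Pi.single_eq_of_ne hj, zero_smul]
  · intro h
    exact absurd (Finset.mem_univ i) h

theorem exists_act (hm : MAb Q) (hg : Surjective (FreeLieAlgebra.lift k g))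
    (hy : ∀ i (m : DD k Q), y i • m = ⁅g i, m⁆) (u : Q) :
    ∃ s : S, ∀ m : DD k Q, s • m = ⁅u, m⁆ := by
  obtain ⟨ab, hab⟩ := exists_ab (k := k) (d := d)
  obtain ⟨f, rfl⟩ := hg u
  exact ⟨_, act_eq hm hy hab f⟩

theorem fin_gen (hm : MAb Q) (hg : Surjective (FreeLieAlgebra.lift k g))
    (hy : ∀ i (m : DD k Q), y i • m = ⁅g i, m⁆) : Module.Finite S (DD k Q) := by
  let N : Submodule S (DD k Q) :=
    Submodule.span S (Set.range (fun p : Fin d × Fin d => (br (g p.1) (g p.2) : DD k Q)))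
  have hN : ∀ (u : Q) (m : DD k Q), m ∈ N → ⁅u, m⁆ ∈ N := by
    intro u m hmN
    obtain ⟨s, hs⟩ := exists_act hm hg hy u
    rw [← hs m]
    exact N.smul_mem s hmN
  have hk : ∀ (c : k) (m : DD k Q), m ∈ N → c • m ∈ N := by
    intro c m hmN
    rw [← one_smul S m, ← smul_assoc]
    exact N.smul_mem _ hmN
  -- first step
  let K1 : Fin d → LieSubalgebra k Q := fun i =>
    { carrier := {f | (br (g i) f : DD k Q) ∈ N}
      add_mem' := by
        intro a b ha hb
        show (br (g i) (a + b) : DD k Q) ∈ N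
        rw [map_add]
        exact N.add_mem ha hb
      zero_mem' := by
        show (br (g i) 0 : DD k Q) ∈ N
        rw [map_zero]
        exact N.zero_mem
      smul_mem' := by
        intro c a ha
        show (br (g i) (c • a) : DD k Q) ∈ N
        rw [map_smul]
        exact hk c _ ha
      lie_mem' := by
        intro a b ha hb
        show (br (g i) ⁅a, b⁆ : DD k Q) ∈ N
        rw [br_lie]
        exact N.sub_mem (hN _ _ hb) (hN _ _ ha) }
  have h1 : ∀ i f, (br (g i) f : DD k Q) ∈ N := fun i f =>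
    sub_top hg (K1 i) (fun j => Submodule.subset_span ⟨(i, j), rfl⟩) f
  let K2 : Q → LieSubalgebra k Q := fun u =>
    { carrier := {f | (br u f : DD k Q) ∈ N}
      add_mem' := by
        intro a b ha hb
        show (br u (a + b) : DD k Q) ∈ N
        rw [map_add]
        exact N.add_mem ha hb
      zero_mem' := by
        show (br u 0 : DD k Q) ∈ N
        rw [map_zero]
        exact N.zero_mem
      smul_mem' := by
        intro c a ha
        show (br u (c • a) : DD k Q) ∈ N
        rw [map_smul]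
        exact hk c _ ha
      lie_mem' := by
        intro a b ha hb
        show (br u ⁅a, b⁆ : DD k Q) ∈ N
        rw [br_lie]
        exact N.sub_mem (hN _ _ hb) (hN _ _ ha) }
  have h2 : ∀ u f, (br u f : DD k Q) ∈ N := fun u f =>
    sub_top hg (K2 u) (fun j => by
      show (br u (g j) : DD k Q) ∈ N
      rw [br_skew]
      exact N.neg_mem (h1 j u)) f
  have h3 : N = ⊤ := by
    rw [eq_top_iff]
    rintro ⟨m, hmD⟩ _
    have h4 : ∃ h : m ∈ DD k Q, (⟨m, h⟩ : DD k Q) ∈ N := by
      refine DD_ind (k := k) (P := fun m => ∃ h : m ∈ DD k Q, (⟨m, h⟩ : DD k Q) ∈ N)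
        ⟨(DD k Q).zero_mem, N.zero_mem⟩ (fun u v => ⟨mem_DD u v, h2 u v⟩) ?_ ?_ hmD
      · rintro u v ⟨hu, hu'⟩ ⟨hv, hv'⟩
        exact ⟨(DD k Q).add_mem hu hv, N.add_mem hu' hv'⟩
      · rintro c u ⟨hu, hu'⟩
        exact ⟨(DD k Q).smul_mem c hu, hk c _ hu'⟩
    exact h4.2
  refine ⟨⟨(Set.finite_range (fun p : Fin d × Fin d => (br (g p.1) (g p.2) : DD k Q))).toFinset, ?_⟩⟩
  rw [Set.Finite.coe_toFinset]
  exact h3

end act

/-- torsion -/
def Tor (k : Type) [Field k] {S M : Type} [CommRing S] [Algebra k S] [AddCommGroup M] [Module S M]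
    (X : S) : Submodule S M where
  carrier := {m | ∃ p : Polynomial k, p ≠ 0 ∧ Polynomial.aeval X p • m = 0}
  add_mem' := by
    rintro a b ⟨p, hp, ha⟩ ⟨q, hq, hb⟩
    refine ⟨p * q, mul_ne_zero hp hq, ?_⟩
    have e1 : Polynomial.aeval X (p * q) • a = 0 := by
      rw [map_mul, mul_comm, mul_smul, ha, smul_zero]
    have e2 : Polynomial.aeval X (p * q) • b = 0 := by
      rw [map_mul, mul_smul, hb, smul_zero]
    rw [smul_add, e1, e2, add_zero]
  zero_mem' := ⟨1, one_ne_zero, smul_zero _⟩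
  smul_mem' := by
    rintro c a ⟨p, hp, ha⟩
    exact ⟨p, hp, by rw [smul_comm, ha, smul_zero]⟩

theorem lsmul_act {S Z : Type} [CommRing S] [Algebra k S] [AddCommGroup Z] [Module k Z]
    [Module S Z] [IsScalarTower k S Z] (y : Fin d → S) (v : Fin d → k) (z : Z) :
    act (fun i => (Algebra.lsmul k k Z (y i) : Module.End k Z)) v z = (∑ i, v i • y i) • z := by
  unfold act
  rw [LinearMap.sum_apply, Finset.sum_smul]
  apply Finset.sum_congr rfl
  intro i _
  rw [smul_assoc]
  rfl

theorem main (hm : MAb Q) (g : Fin d → Q) (hg : Surjective (FreeLieAlgebra.lift k g)) (x a : Q)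
    (hx : ∀ p : Polynomial k, p ≠ 0 →
      Polynomial.aeval (LieAlgebra.ad k Q x : Module.End k Q) p ⁅x, a⁆ ≠ 0) :
    ∃ (S : Type) (_ : CommRing S) (_ : Algebra k S) (_ : Algebra.FiniteType k S) (Z : Type)
      (_ : AddCommGroup Z) (_ : Module k Z) (_ : Module S Z) (_ : IsScalarTower k S Z)
      (_ : Module.Finite S Z) (X : S) (y : Fin d → S) (ψ : Q →ₗ[k] Z)
      (ab : FreeLieAlgebra k (Fin d) →ₗ[k] (Fin d → k)), IsAb ab ∧
      (∀ f f', ψ (FreeLieAlgebra.lift k g ⁅f, f'⁆) =
        act (fun i => (Algebra.lsmul k k Z (y i) : Module.End k Z)) (ab f)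
          (ψ (FreeLieAlgebra.lift k g f')) -
        act (fun i => (Algebra.lsmul k k Z (y i) : Module.End k Z)) (ab f')
          (ψ (FreeLieAlgebra.lift k g f))) ∧
      (∀ u, ψ ⁅x, u⁆ = X • ψ u) ∧ ψ a ≠ 0 ∧
      ∀ p : Polynomial k, p ≠ 0 → ∀ z : Z, Polynomial.aeval X p • z = 0 → z = 0 := by
  obtain ⟨S, iS1, iS2, iS3, iS4, iS5, y, hy'⟩ := exists_S (k := k) (M := DD k Q)
    (fun i => TT (g i)) (fun i j => T_comm hm _ _)
  have hy : ∀ i (m : DD k Q), y i • m = ⁅g i, m⁆ := hy'
  obtain ⟨ab, hab⟩ := exists_ab (k := k) (d := d)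
  obtain ⟨X, hX⟩ := exists_act (S := S) hm hg hy x
  have hfin : Module.Finite S (DD k Q) := fin_gen hm hg hy
  refine ⟨S, iS1, iS2, iS3, DD k Q ⧸ Tor (M := DD k Q) k X, inferInstance, inferInstance,
    inferInstance, inferInstance, inferInstance, X, y,
    ((Tor (M := DD k Q) k X).mkQ.restrictScalars k).comp (br x), ab, hab, ?_, ?_, ?_, ?_⟩
  · intro f f'
    rw [lsmul_act, lsmul_act]
    have h1 := act_eq hm hy hab f (br x (FreeLieAlgebra.lift k g f') : DD k Q)
    have h2 := act_eq hm hy hab f' (br x (FreeLieAlgebra.lift k g f) : DD k Q)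
    simp only [LinearMap.comp_apply, LinearMap.restrictScalars_apply]
    rw [← LinearMap.map_smul, ← LinearMap.map_smul, ← LinearMap.map_sub, h1, h2,
      LieHom.map_lie, br_lie]
  · intro u
    simp only [LinearMap.comp_apply, LinearMap.restrictScalars_apply]
    rw [← LinearMap.map_smul, hX]
    congr 1
  · intro h
    simp only [LinearMap.comp_apply, LinearMap.restrictScalars_apply] at h
    rw [Submodule.mkQ_apply, Submodule.Quotient.mk_eq_zero] at h
    obtain ⟨p, hp, h1⟩ := h
    apply hx p hp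
    let ι : DD k Q →ₗ[k] Q :=
      { toFun := fun m => (m : Q)
        map_add' := fun _ _ => rfl
        map_smul' := fun _ _ => rfl }
    have h2 := aeval_comm (k := k) ι
      (Algebra.lsmul k k (DD k Q) X : Module.End k (DD k Q))
      (LieAlgebra.ad k Q x : Module.End k Q) (by
        intro m
        show ((X • m : DD k Q) : Q) = ⁅x, (m : Q)⁆
        rw [hX]
        rfl) p (br x a)
    have h3 : (Polynomial.aeval (Algebra.lsmul k k (DD k Q) X : Module.End k (DD k Q)) p)
        (br x a : DD k Q) = Polynomial.aeval X p • (br x a : DD k Q) := by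
      have := Polynomial.aeval_algHom_apply (Algebra.lsmul k k (DD k Q)) X p
      rw [this]
      rfl
    rw [h3, h1] at h2
    exact h2.symm
  · intro p hp z hz
    obtain ⟨m, rfl⟩ := Submodule.mkQ_surjective _ z
    rw [← map_smul, Submodule.mkQ_apply, Submodule.Quotient.mk_eq_zero] at hz
    obtain ⟨q, hq, h1⟩ := hz
    rw [Submodule.mkQ_apply, Submodule.Quotient.mk_eq_zero]
    exact ⟨q * p, mul_ne_zero hq hp, by rw [map_mul, mul_smul, h1]⟩

end metab

end ModX

theorem nmod_proof : Stmt_MOD := by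
  intro k _ d H _ _ h hs x a hx
  let I : LieIdeal k H := LieAlgebra.derivedSeries k H 2
  let π : H →ₗ⁅k⁆ H ⧸ I :=
    { toLinearMap := (LieSubmodule.Quotient.mk' I : H →ₗ[k] H ⧸ I)
      map_lie' := fun {u v} => rfl }
  have hπ : ∀ u, π u = 0 ↔ u ∈ I := fun u => LieSubmodule.Quotient.mk_eq_zero'
  have hπs : Function.Surjective π := LieSubmodule.Quotient.surjective_mk' I
  have hm : ModX.MAb (H ⧸ I) := by
    intro a b c e
    obtain ⟨a, rfl⟩ := hπs a
    obtain ⟨b, rfl⟩ := hπs b
    obtain ⟨c, rfl⟩ := hπs c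
    obtain ⟨e, rfl⟩ := hπs e
    rw [← LieHom.map_lie, ← LieHom.map_lie, ← LieHom.map_lie, hπ]
    exact LieSubmodule.lie_mem_lie (ModX.mem_DD a b) (ModX.mem_DD c e)
  have hl : FreeLieAlgebra.lift k (fun i => π (h i)) = π.comp (FreeLieAlgebra.lift k h) := by
    apply FreeLieAlgebra.hom_ext
    intro i
    simp
  have hg : Function.Surjective (FreeLieAlgebra.lift k (fun i => π (h i))) := by
    rw [hl]
    exact hπs.comp hs
  obtain ⟨S, i1, i2, i3, Z, i4, i5, i6, i7, i8, X, y, ψ, ab, hab, h1, h2, h3, h4⟩ :=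
    ModX.main hm (fun i => π (h i)) hg (π x) (π a) (by
      intro p hp h0
      apply hx p hp
      have := ModX.aeval_comm (k := k) (π : H →ₗ[k] H ⧸ I)
        (LieAlgebra.ad k H x : Module.End k H) (LieAlgebra.ad k (H ⧸ I) (π x) : Module.End k (H ⧸ I))
        (fun m => π.map_lie x m) p ⁅x, a⁆
      rw [← hπ]
      have h5 : (π : H →ₗ[k] H ⧸ I) ⁅x, a⁆ = ⁅π x, π a⁆ := π.map_lie x a
      rw [h5, h0] at this
      exact this)
  refine ⟨S, i1, i2, i3, Z, i4, i5, i6, i7, i8, X, y, ψ ∘ₗ (π : H →ₗ[k] H ⧸ I), ab, hab, ?_, ?_, h3, h4⟩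
  · intro f f'
    have := h1 f f'
    rw [hl] at this
    exact this
  · intro u
    have := h2 (π u)
    rw [← LieHom.map_lie] at this
    exact this

end Pool.Agent.HIL
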