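import Mathlib
import Pool.Agent.HIL.Neg

/-!
# The set of relators is recursively enumerable
-/

noncomputable section

namespace Pool.Agent.HIL

namespace NREX

theorem primrec_rel {K : ℕ} (ix ia : Fin K) : Primrec (fun i : ℕ =>
    ([((1, 0), ia :: (List.replicate i ix ++ [ia]))] : LExpr K)) := by
  have h1 : Primrec (fun i : ℕ => ia :: (List.replicate i ix ++ [ia])) := by
    have h0 : Primrec (fun i : ℕ => (List.range i).map (fun _ => ix)) :=
      Primrec.list_map Primrec.list_range (Primrec.const ix).to₂
    have h2 : Primrec (fun i : ℕ => ia :: ((List.range i).map (fun _ => ix) ++ [ia])) :=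
      Primrec.list_cons.comp (Primrec.const ia)
        (Primrec.list_append.comp h0 (Primrec.const [ia]))
    refine h2.of_eq fun i => ?_
    simp [List.map_const']
  have h3 : Primrec (fun i : ℕ => (((1 : ℤ), (0 : ℕ)), ia :: (List.replicate i ix ++ [ia]))) :=
    Primrec.pair (Primrec.const ((1 : ℤ), (0 : ℕ))) h1
  exact Primrec.list_cons.comp h3 (Primrec.const [])

theorem primrec_len {K : ℕ} : Primrec (fun e : LExpr K =>
    ((e.head?).map (fun t => t.2.length - 2)).getD 0) := by
  have h1 : Primrec (fun e : LExpr K => (e.head?).map (fun t => t.2.length - 2)) := by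
    refine Primrec.option_map Primrec.list_head? ?_
    have : Primrec (fun t : LExpr K × ((ℤ × ℕ) × List (Fin K)) => t.2.2.length - 2) :=
      Primrec.nat_sub.comp (Primrec.list_length.comp (Primrec.snd.comp Primrec.snd))
        (Primrec.const 2)
    exact this.to₂
  exact Primrec.option_getD.comp h1 (Primrec.const 0)

end NREX

theorem nre_proof : Stmt_RE := by
  intro K ix ia
  apply ComputablePred.to_re
  have hp := NREX.primrec_rel ix ia
  have hl := NREX.primrec_len (K := K)
  have h : PrimrecPred (fun e : LExpr K => e ∈ Set.range (fun i : ℕ =>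
    ([((1, 0), ia :: (List.replicate i ix ++ [ia]))] : LExpr K))) := by
    have h2 : PrimrecPred (fun e : LExpr K => e = (fun i : ℕ =>
      ([((1, 0), ia :: (List.replicate i ix ++ [ia]))] : LExpr K))
        (((e.head?).map (fun t => t.2.length - 2)).getD 0)) :=
      Primrec.eq.comp Primrec.id (hp.comp hl)
    refine h2.of_eq fun e => ?_
    constructor
    · intro h
      exact ⟨_, h.symm⟩
    · rintro ⟨i, rfl⟩
      simp
  exact h.computablePred

theorem re_proof : Stmt_RE := nre_proof

end Pool.Agent.HIL
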