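import Mathlib
import Pool.Agent.HIL.Neg

/-!
# Characteristic 2: assembly
-/

noncomputable section

namespace Pool.Agent.HIL

open Function
open scoped TensorProduct

section Quot
variable {k L : Type} [Field k] [LieRing L] [LieAlgebra k L]

/-- the quotient homomorphism -/
def mkHom (J : LieIdeal k L) : L →ₗ⁅k⁆ L ⧸ J :=
  { (J : Submodule k L).mkQ with
    toFun := fun x => LieSubmodule.Quotient.mk x
    map_lie' := rfl }

theorem mkHom_apply (J : LieIdeal k L) (x : L) : mkHom J x = LieSubmodule.Quotient.mk x := rfl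

theorem mkHom_surjective (J : LieIdeal k L) : Surjective (mkHom J) :=
  fun y => Quotient.inductionOn' y fun x => ⟨x, rfl⟩

theorem mkHom_eq_zero {J : LieIdeal k L} {x : L} : mkHom J x = 0 ↔ x ∈ J := by
  change (LieSubmodule.Quotient.mk x : L ⧸ J) = 0 ↔ _
  exact LieSubmodule.Quotient.mk_eq_zero'

/-- kernel of an iterated quotient -/
theorem ker_two (J : LieIdeal k L) (R : Set L) {u : L}
    (h : mkHom (LieSubmodule.lieSpan k (L ⧸ J) (mkHom J '' R)) (mkHom J u) = 0) :
    u ∈ LieSubmodule.lieSpan k L R ⊔ J := by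
  rw [mkHom_eq_zero] at h
  have h1 : LieSubmodule.lieSpan k (L ⧸ J) (mkHom J '' R) ≤
      LieIdeal.map (mkHom J) (LieSubmodule.lieSpan k L R) := by
    rw [LieSubmodule.lieSpan_le]
    rintro _ ⟨r, hr, rfl⟩
    exact LieIdeal.mem_map (LieSubmodule.subset_lieSpan hr)
  obtain ⟨⟨r, hr⟩, hr'⟩ := LieIdeal.mem_map_of_surjective (mkHom_surjective J) (h1 h)
  have h2 : u - r ∈ J := by
    rw [← mkHom_eq_zero, map_sub, sub_eq_zero]
    exact hr'.symm
  rw [LieSubmodule.mem_sup]
  exact ⟨r, hr, u - r, h2, by abel⟩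

theorem exists_lift (J : LieIdeal k L) {R0 : Set (L ⧸ J)} (h : R0.Finite) :
    ∃ R1 : Set L, R1.Finite ∧ mkHom J '' R1 = R0 := by
  refine ⟨surjInv (mkHom_surjective J) '' R0, h.image _, ?_⟩
  rw [← Set.image_comp]
  have : (mkHom J ∘ surjInv (mkHom_surjective J)) = id := by
    funext y
    exact surjInv_eq (mkHom_surjective J) y
  rw [this, Set.image_id]

theorem ker_two' (J : LieIdeal k L) (R : Set L) {u : L}
    (h : u ∈ LieSubmodule.lieSpan k L R) :
    mkHom (LieSubmodule.lieSpan k (L ⧸ J) (mkHom J '' R)) (mkHom J u) = 0 := by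
  have h1 : LieSubmodule.lieSpan k L R ≤
      ((mkHom (LieSubmodule.lieSpan k (L ⧸ J) (mkHom J '' R))).comp (mkHom J)).ker := by
    rw [LieSubmodule.lieSpan_le]
    intro r hr
    change (mkHom (LieSubmodule.lieSpan k (L ⧸ J) (mkHom J '' R))) (mkHom J r) = 0
    rw [mkHom_eq_zero]
    exact LieSubmodule.subset_lieSpan ⟨r, hr, rfl⟩
  exact h1 h

end Quot

section Brackets
variable {k L : Type} [Field k] [LieRing L] [LieAlgebra k L]

/-- iterated bracket by `x` -/
def adp (x a : L) : ℕ → L
  | 0 => a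
  | i + 1 => ⁅x, adp x a i⁆

theorem adp_add (x a : L) (i j : ℕ) : adp x (adp x a i) j = adp x a (i + j) := by
  induction j with
  | zero => rfl
  | succ j ih => rw [← add_assoc]; simp only [adp, ih]

theorem map_adp {L' : Type} [LieRing L'] [LieAlgebra k L'] (f : L →ₗ⁅k⁆ L') (x a : L) (i : ℕ) :
    f (adp x a i) = adp (f x) (f a) i := by
  induction i with
  | zero => rfl
  | succ i ih => simp only [adp, LieHom.map_lie, ih]

theorem foldl_adp [CharP k 2] (x a : L) (i : ℕ) :
    (List.replicate i x).foldl (fun u v => ⁅u, v⁆) a = adp x a i := by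
  have hneg : ∀ u : L, -u = u := by
    intro u
    have : (-1 : k) = 1 := by
      rw [neg_eq_iff_add_eq_zero, one_add_one_eq_two]
      exact CharTwo.two_eq_zero
    rw [← neg_one_smul k u, this, one_smul]
  have hsw : ∀ u v : L, ⁅u, v⁆ = ⁅v, u⁆ := by
    intro u v
    rw [← lie_skew, hneg]
  have : ∀ j, (List.replicate i x).foldl (fun u v => ⁅u, v⁆) (adp x a j) = adp x a (j + i) := by
    induction i with
    | zero => intro j; rfl
    | succ i ih =>
      intro j
      rw [List.replicate_succ, List.foldl_cons, hsw]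
      have := ih (j + 1)
      rw [show j + 1 + i = j + (i + 1) by ring] at this
      exact this
  have h0 := this 0
  rw [zero_add] at h0
  exact h0

theorem adp_comm (x a : L) (h : ∀ i, ⁅adp x a i, a⁆ = 0) (i j : ℕ) :
    ⁅adp x a i, adp x a j⁆ = 0 := by
  induction j generalizing i with
  | zero => exact h i
  | succ j ih =>
    have h1 : ⁅x, ⁅adp x a i, adp x a j⁆⁆ = ⁅adp x a (i + 1), adp x a j⁆ +
        ⁅adp x a i, adp x a (j + 1)⁆ := by
      rw [leibniz_lie]
      rfl
    rw [ih, ih, lie_zero, zero_add] at h1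
    exact h1.symm

theorem map_brk {L' : Type} [LieRing L'] [LieAlgebra k L'] (f : L →ₗ⁅k⁆ L') (b : L) (g : ℕ → L)
    (j : ℕ) : f (brk b g j) = brk (f b) (fun i => f (g i)) j := by
  induction j with
  | zero => rfl
  | succ j ih => simp only [brk, LieHom.map_lie, ih]

theorem map_aeval {L' : Type} [LieRing L'] [LieAlgebra k L'] (f : L →ₗ⁅k⁆ L') (x u : L)
    (p : Polynomial k) :
    f (Polynomial.aeval (LieAlgebra.ad k L x : Module.End k L) p u) =
      Polynomial.aeval (LieAlgebra.ad k L' (f x) : Module.End k L') p (f u) := by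
  induction p using Polynomial.induction_on' generalizing u with
  | add p q hp hq => simp only [map_add, LinearMap.add_apply, hp, hq]
  | monomial n c =>
    rw [Polynomial.aeval_monomial, Polynomial.aeval_monomial]
    simp only [Module.End.mul_apply, Module.algebraMap_end_apply, _root_.map_smul]
    congr 1
    induction n generalizing u with
    | zero => simp
    | succ n ih =>
      rw [pow_succ, pow_succ, Module.End.mul_apply, Module.End.mul_apply, ih, LieAlgebra.ad_apply,
        LieAlgebra.ad_apply, LieHom.map_lie]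

theorem derived_map {L' : Type} [LieRing L'] [LieAlgebra k L'] (f : L →ₗ⁅k⁆ L') {n : ℕ} {u : L}
    (h : u ∈ LieAlgebra.derivedSeries k L n) : f u ∈ LieAlgebra.derivedSeries k L' n :=
  LieIdeal.derivedSeries_map_le (f := f) n (LieIdeal.mem_map h)

theorem brk_mem {b : L} {g : ℕ → L} (hb : b ∈ LieAlgebra.derivedSeries k L 2)
    (hg : ∀ j, g j ∈ LieAlgebra.derivedSeries k L (j + 2)) (j : ℕ) :
    brk b g j ∈ LieAlgebra.derivedSeries k L (j + 2) := by
  induction j with
  | zero => exact hb
  | succ j ih =>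
    have : LieAlgebra.derivedSeries k L (j + 1 + 2) =
        ⁅LieAlgebra.derivedSeries k L (j + 2), LieAlgebra.derivedSeries k L (j + 2)⁆ := by
      rw [show j + 1 + 2 = (j + 2) + 1 by ring, LieAlgebra.derivedSeries_def,
        LieAlgebra.derivedSeriesOfIdeal_succ]
    rw [this]
    exact LieSubmodule.lie_mem_lie ih (hg j)

end Brackets

theorem negasm_gen (k : Type) [Field k] [CharP k 2] (ca : Stmt_CA) (la : Stmt_LA) (lb : Stmt_LB)
    (mod : Stmt_MOD) (model : Stmt_MODEL) (re : Stmt_RE) (n : ℕ) (hn : 3 ≤ n) :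
    ¬ HigmanLie k n := by
  intro hHig
  obtain ⟨K, ix, ia, T, _, _, θ, g, hTn, hrel, hg, hbrk⟩ := model k n hn
  let w : ℕ → LExpr K := fun i => [((1, 0), ia :: (List.replicate i ix ++ [ia]))]
  let FK := FreeLieAlgebra k (Fin K)
  let JK : LieIdeal k FK := LieAlgebra.derivedSeries k FK n
  let RK : Set FK := Set.range fun i => lnorm ((ia :: (List.replicate i ix ++ [ia])).map
    (FreeLieAlgebra.of k))
  have hval : ∀ i, (w i).val k = lnorm ((ia :: (List.replicate i ix ++ [ia])).map
      (FreeLieAlgebra.of k)) := by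
    intro i
    simp [w, LExpr.val]
  have hR : (fun e : LExpr K => (LieSubmodule.Quotient.mk (e.val k) : RelFreeLie k n K)) ''
      (Set.range w) = mkHom JK '' RK := by
    ext v
    constructor
    · rintro ⟨_, ⟨i, rfl⟩, rfl⟩
      refine ⟨_, ⟨i, rfl⟩, ?_⟩
      change mkHom JK _ = mkHom JK ((w i).val k)
      rw [hval]
    · rintro ⟨_, ⟨i, rfl⟩, rfl⟩
      refine ⟨_, ⟨i, rfl⟩, ?_⟩
      change mkHom JK ((w i).val k) = mkHom JK _
      rw [hval]
  let IK : LieIdeal k (RelFreeLie k n K) := LieSubmodule.lieSpan k (RelFreeLie k n K)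
    (mkHom JK '' RK)
  let G := RelFreeLie k n K ⧸ IK
  have hG : RecPresLie k n G := by
    refine ⟨K, Set.range w, re K ix ia, ?_⟩
    rw [hR]
    exact ⟨LieEquiv.refl⟩
  obtain ⟨H, _, _, ⟨d, R0, hR0, ⟨e⟩⟩, f, hf⟩ := hHig G hG
  -- the presentation of `H`
  let FD := FreeLieAlgebra k (Fin d)
  let JD : LieIdeal k FD := LieAlgebra.derivedSeries k FD n
  obtain ⟨R1, hR1, rfl⟩ := exists_lift JD hR0
  let π : FD →ₗ⁅k⁆ H := (e.symm : _ →ₗ⁅k⁆ H).comp
    ((mkHom (LieSubmodule.lieSpan k (RelFreeLie k n d) (mkHom JD '' R1))).comp (mkHom JD))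
  have hπs : Surjective π :=
    e.symm.surjective.comp ((mkHom_surjective _).comp (mkHom_surjective _))
  have hπk : ∀ u, π u = 0 → u ∈ LieSubmodule.lieSpan k FD R1 ⊔ JD := by
    intro u hu
    refine ker_two JD R1 ?_
    have h1 : e.symm (mkHom (LieSubmodule.lieSpan k (RelFreeLie k n d) (mkHom JD '' R1))
      (mkHom JD u)) = e.symm 0 := by rw [map_zero]; exact hu
    exact e.symm.injective h1
  have hπk' : ∀ u ∈ LieSubmodule.lieSpan k FD R1, π u = 0 := by
    intro u hu
    change e.symm (mkHom (LieSubmodule.lieSpan k (RelFreeLie k n d) (mkHom JD '' R1))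
      (mkHom JD u)) = 0
    rw [ker_two' JD R1 hu, map_zero]
  have hHn : LieAlgebra.derivedSeries k H n = ⊥ := by
    rw [← LieIdeal.derivedSeries_map_eq (f := π) n hπs, eq_bot_iff, LieIdeal.map_le]
    rintro _ ⟨u, hu, rfl⟩
    have : mkHom JD u = 0 := mkHom_eq_zero.2 hu
    change e.symm (mkHom (LieSubmodule.lieSpan k (RelFreeLie k n d) (mkHom JD '' R1))
      (mkHom JD u)) ∈ _
    rw [this, map_zero, map_zero]
    exact Submodule.zero_mem _
  let h : Fin d → H := fun i => π (FreeLieAlgebra.of k i)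
  have hlift : FreeLieAlgebra.lift k h = π := FreeLieAlgebra.lift_comp_of (R := k) π
  -- the embedding
  let q : FK →ₗ⁅k⁆ G := (mkHom IK).comp (mkHom JK)
  let Fq : FK →ₗ⁅k⁆ H := f.comp q
  have hq : ∀ u, q u = 0 → FreeLieAlgebra.lift k θ u = 0 := by
    intro u hu
    have h1 := ker_two JK RK hu
    have h2 : LieSubmodule.lieSpan k FK RK ⊔ JK ≤ (FreeLieAlgebra.lift k θ).ker := by
      refine sup_le ?_ ?_
      · rw [LieSubmodule.lieSpan_le]
        rintro _ ⟨i, rfl⟩
        change FreeLieAlgebra.lift k θ _ = 0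
        rw [← hrel i]
        have hl : ∀ l : List FK, FreeLieAlgebra.lift k θ (lnorm l) =
            lnorm (l.map (FreeLieAlgebra.lift k θ)) := by
          intro l
          cases l with
          | nil => simp [lnorm]
          | cons a l =>
            simp only [lnorm, List.map_cons]
            induction l generalizing a with
            | nil => rfl
            | cons b l ih =>
              simp only [List.foldl_cons, List.map_cons]
              rw [ih, LieHom.map_lie]
        rw [hl, List.map_map]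
        congr 1
        apply List.map_congr_left
        intro i _
        simp
      · intro v hv
        have h3 := derived_map (FreeLieAlgebra.lift k θ) hv
        rw [hTn] at h3
        exact h3
    exact h2 h1
  let x : H := Fq (FreeLieAlgebra.of k ix)
  let a : H := Fq (FreeLieAlgebra.of k ia)
  have hrelH : ∀ i, ⁅adp x a i, a⁆ = 0 := by
    intro i
    have h1 : Fq (lnorm ((ia :: (List.replicate i ix ++ [ia])).map (FreeLieAlgebra.of k))) = 0 := by
      change f (q _) = 0
      have : q (lnorm ((ia :: (List.replicate i ix ++ [ia])).map (FreeLieAlgebra.of k))) = 0 :=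
        ker_two' JK RK (LieSubmodule.subset_lieSpan ⟨i, rfl⟩)
      rw [this, map_zero]
    have h2 : lnorm ((ia :: (List.replicate i ix ++ [ia])).map
        (FreeLieAlgebra.of k : Fin K → FK)) =
        ⁅adp (FreeLieAlgebra.of k ix) (FreeLieAlgebra.of k ia : FK) i,
          (FreeLieAlgebra.of k ia : FK)⁆ := by
      simp only [List.map_cons, List.map_append, List.map_replicate, List.map_nil, lnorm,
        List.foldl_append, List.foldl_cons, List.foldl_nil]
      rw [foldl_adp (k := k)]
    rw [h2, LieHom.map_lie, map_adp] at h1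
    exact h1
  have hcomm := adp_comm x a hrelH
  have hcond : ∀ p : Polynomial k, p ≠ 0 →
      Polynomial.aeval (LieAlgebra.ad k H x : Module.End k H) p ⁅x, a⁆ ∉
        LieAlgebra.derivedSeries k H 2 := by
    intro p hp hmem
    let b0 : FK := Polynomial.aeval (LieAlgebra.ad k FK (FreeLieAlgebra.of k ix) :
      Module.End k FK) p ⁅(FreeLieAlgebra.of k ix : FK), FreeLieAlgebra.of k ia⁆
    have hb0 : Fq b0 = Polynomial.aeval (LieAlgebra.ad k H x : Module.End k H) p ⁅x, a⁆ := by
      simp only [b0]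
      rw [map_aeval, LieHom.map_lie]
    have h1 := brk_mem (b := Fq b0) (g := fun j => Fq (g j)) (by rw [hb0]; exact hmem)
      (fun j => derived_map Fq (hg j)) (n - 2)
    rw [← map_brk, show n - 2 + 2 = n by omega, hHn] at h1
    have h2 : f (q (brk b0 g (n - 2))) = f 0 := by
      rw [map_zero]
      exact h1
    have h3 := hq _ (hf h2)
    rw [map_brk] at h3
    refine hbrk p hp ?_
    rw [← h3]
    congr 1
    simp only [b0]
    rw [map_aeval, LieHom.map_lie]
    simp
  -- the module
  obtain ⟨S, _, _, _, Z, _, _, _, _, _, X, y, ψ0, ab, hab, hψ, hX, hψa, htf⟩ :=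
    mod k d H h (by rw [hlift]; exact hπs) x a hcond
  rw [hlift] at hψ
  let Y : Fin d → Module.End k Z := fun i => (Algebra.lsmul k k Z (y i) : Module.End k Z)
  have hY : ∀ i j, Commute (Y i) (Y j) := by
    intro i j
    change Algebra.lsmul k k Z (y i) * Algebra.lsmul k k Z (y j) =
      Algebra.lsmul k k Z (y j) * Algebra.lsmul k k Z (y i)
    rw [← map_mul, ← map_mul, mul_comm]
  let ψ : FD →ₗ[k] Z := ψ0.comp (π : FD →ₗ[k] H)
  obtain ⟨xt, hxt⟩ := hπs x
  obtain ⟨at', hat⟩ := hπs a
  have hψadp : ∀ i, ψ0 (adp x a i) = X ^ i • ψ0 a := by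
    intro i
    induction i with
    | zero => simp [adp]
    | succ i ih => rw [adp, hX, ih, smul_smul, pow_succ']
  have habz : ∀ i, ab (adp xt at' (i + 1)) = 0 := fun i => hab.2 _ _
  refine ca k S Z X d y (X • ψ0 a) ?_ htf ?_
  · intro h0
    refine hψa (htf Polynomial.X Polynomial.X_ne_zero _ ?_)
    rw [Polynomial.aeval_X]
    exact h0
  · intro N
    obtain ⟨U, hU, hUN⟩ := lb la k d Z Y hY ab hab ψ hψ R1 hR1 (fun r hr => by
        change ψ0 (π r) = 0
        rw [hπk' r hr, map_zero]) n hn N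
    refine ⟨U, hU, ?_⟩
    intro i j
    have h1 := hUN (adp xt at' (i + 1)) (adp xt at' (j + 1)) (habz i) (habz j) (hπk _ (by
      rw [LieHom.map_lie, map_adp, map_adp, hxt, hat]
      exact hcomm _ _))
    have h2 : ∀ i, ψ (adp xt at' (i + 1)) = X ^ i • X • ψ0 a := by
      intro i
      change ψ0 (π _) = _
      rw [map_adp, hxt, hat, hψadp, pow_succ, mul_smul]
    rw [h2, h2] at h1
    exact h1

theorem negasm_proof : Stmt_NegAsm := by
  intro ca la lb mod model re n hn
  exact negasm_gen (ZMod 2) ca la lb mod model re n hn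

end Pool.Agent.HIL
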