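import Mathlib
import Pool.Agent.HIL.Neg

/-!
# The Lie algebra `(Z + Z ⊗ Z) ⋊ k^d`
-/

noncomputable section

namespace Pool.Agent.HIL

open Function
open scoped TensorProduct

namespace LAx

variable {k : Type} [Field k] {d : ℕ} {Z : Type} [AddCommGroup Z] [Module k Z]

theorem dplus_tmul (A : Module.End k Z) (u v : Z) :
    dplus A (u ⊗ₜ[k] v) = A u ⊗ₜ[k] v + u ⊗ₜ[k] A v := by
  simp [dplus]

theorem dplus_comm {A B : Module.End k Z} (h : Commute A B) (t : Z ⊗[k] Z) :
    dplus A (dplus B t) = dplus B (dplus A t) := by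
  have h' : ∀ u, A (B u) = B (A u) := fun u => by
    have := congrArg (fun f : Module.End k Z => f u) h.eq
    exact this
  induction t with
  | zero => simp
  | add x y hx hy => simp only [map_add, hx, hy]
  | tmul u v => simp only [dplus_tmul, map_add, h']; abel

theorem dplus_add (A B : Module.End k Z) : dplus (A + B) = dplus A + dplus B := by
  refine TensorProduct.ext' fun u v => ?_
  simp only [dplus_tmul, LinearMap.add_apply, TensorProduct.add_tmul, TensorProduct.tmul_add]
  abel

theorem dplus_smul (c : k) (A : Module.End k Z) : dplus (c • A) = c • dplus A := by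
  refine TensorProduct.ext' fun u v => ?_
  simp only [dplus_tmul, LinearMap.smul_apply, TensorProduct.smul_tmul', TensorProduct.tmul_smul,
    smul_add]

theorem dplus_zero : dplus (0 : Module.End k Z) = 0 := by
  refine TensorProduct.ext' fun u v => ?_
  simp [dplus_tmul]

variable (Y : Fin d → Module.End k Z)

theorem act_add (v w : Fin d → k) : act Y (v + w) = act Y v + act Y w := by
  simp [act, add_smul, Finset.sum_add_distrib]

theorem act_smul (c : k) (v : Fin d → k) : act Y (c • v) = c • act Y v := by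
  simp [act, Finset.smul_sum, smul_smul]

theorem act_zero : act Y (0 : Fin d → k) = 0 := by simp [act]

theorem act_single (i : Fin d) : act Y (Pi.single i 1) = Y i := by
  classical
  unfold act
  rw [Finset.sum_eq_single i]
  · simp
  · intro j _ hj
    simp [hj]
  · simp

variable {Y} in
theorem act_comm (hY : ∀ i j, Commute (Y i) (Y j)) (v w : Fin d → k) :
    Commute (act Y v) (act Y w) := by
  unfold act
  refine Commute.sum_left _ _ _ fun i _ => Commute.sum_right _ _ _ fun j _ => ?_
  exact ((hY i j).smul_left _).smul_right _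

/-- the underlying space -/
@[ext] structure E (k : Type) [Field k] (d : ℕ) (Z : Type) [AddCommGroup Z] [Module k Z] where
  z : Z
  w : Z ⊗[k] Z
  v : Fin d → k

/-- the space is a product -/
def E.equiv : E k d Z ≃ Z × (Z ⊗[k] Z) × (Fin d → k) where
  toFun a := (a.z, a.w, a.v)
  invFun a := ⟨a.1, a.2.1, a.2.2⟩
  left_inv _ := rfl
  right_inv _ := rfl

instance : AddCommGroup (E k d Z) := E.equiv.addCommGroup
instance : Module k (E k d Z) := E.equiv.module k

theorem E.add_z (a b : E k d Z) : (a + b).z = a.z + b.z := rfl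
theorem E.add_w (a b : E k d Z) : (a + b).w = a.w + b.w := rfl
theorem E.add_v (a b : E k d Z) : (a + b).v = a.v + b.v := rfl
theorem E.zero_z : (0 : E k d Z).z = 0 := rfl
theorem E.zero_w : (0 : E k d Z).w = 0 := rfl
theorem E.zero_v : (0 : E k d Z).v = 0 := rfl
theorem E.smul_z (c : k) (a : E k d Z) : (c • a).z = c • a.z := rfl
theorem E.smul_w (c : k) (a : E k d Z) : (c • a).w = c • a.w := rfl
theorem E.smul_v (c : k) (a : E k d Z) : (c • a).v = c • a.v := rfl

/-- the bracket -/
def br (a b : E k d Z) : E k d Z :=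
  ⟨act Y a.v b.z - act Y b.v a.z,
    a.z ⊗ₜ[k] b.z - b.z ⊗ₜ[k] a.z + dplus (act Y a.v) b.w - dplus (act Y b.v) a.w, 0⟩

variable {Y} in
/-- the Lie ring -/
@[reducible] def lieRing (hY : ∀ i j, Commute (Y i) (Y j)) : LieRing (E k d Z) where
  bracket := br Y
  add_lie a b c := by
    ext1
    · simp only [br, E.add_z, E.add_v, act_add, map_add, LinearMap.add_apply]; abel
    · simp only [br, E.add_z, E.add_v, E.add_w, act_add, map_add, LinearMap.add_apply,
        TensorProduct.add_tmul, TensorProduct.tmul_add, dplus_add]; abel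
    · simp [br, E.add_v]
  lie_add a b c := by
    ext1
    · simp only [br, E.add_z, E.add_v, act_add, map_add, LinearMap.add_apply]; abel
    · simp only [br, E.add_z, E.add_v, E.add_w, act_add, map_add, LinearMap.add_apply,
        TensorProduct.add_tmul, TensorProduct.tmul_add, dplus_add]; abel
    · simp [br, E.add_v]
  lie_self a := by
    ext1
    · simp [br, E.zero_z]
    · simp [br, E.zero_w]
    · simp [br, E.zero_v]
  leibniz_lie a b c := by
    have h1 : ∀ (v w : Fin d → k) (u : Z), act Y v (act Y w u) = act Y w (act Y v u) :=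
      fun v w u => congrArg (fun f : Module.End k Z => f u) (act_comm hY v w).eq
    have h2 : ∀ (v w : Fin d → k) (t : Z ⊗[k] Z), dplus (act Y v) (dplus (act Y w) t) =
        dplus (act Y w) (dplus (act Y v) t) := fun v w t => dplus_comm (act_comm hY v w) t
    ext1
    · simp only [br, E.add_z, act_zero, LinearMap.zero_apply, map_sub]
      rw [h1 b.v a.v, h1 c.v b.v, h1 c.v a.v]
      abel
    · simp only [br, E.add_w, act_zero, dplus_zero, LinearMap.zero_apply, map_sub, map_add,
        dplus_tmul, TensorProduct.sub_tmul, TensorProduct.tmul_sub]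
      rw [h2 b.v a.v, h2 c.v b.v, h2 c.v a.v]
      abel
    · simp [br, E.add_v]

end LAx

open LAx in
theorem la_proof : Stmt_LA := by
  intro k _ _ d Z _ _ Y hY τ
  let _ : LieRing (E k d Z) := LAx.lieRing hY
  let _ : LieAlgebra k (E k d Z) :=
    { (inferInstance : Module k (E k d Z)) with
      lie_smul := by
        intro c a b
        change br Y a (c • b) = c • br Y a b
        ext1
        · simp only [br, E.smul_z, E.smul_v, act_smul, map_smul, LinearMap.smul_apply, smul_sub]
        · simp only [br, E.smul_z, E.smul_v, E.smul_w, act_smul, map_smul, LinearMap.smul_apply,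
            smul_sub, smul_add, TensorProduct.smul_tmul', TensorProduct.tmul_smul, dplus_smul]
        · simp [br, E.smul_v] }
  let Φ : FreeLieAlgebra k (Fin d) →ₗ⁅k⁆ E k d Z :=
    FreeLieAlgebra.lift k fun i => (⟨τ i, 0, Pi.single i 1⟩ : E k d Z)
  let Φl : FreeLieAlgebra k (Fin d) →ₗ[k] E k d Z :=
    { toFun := fun u => Φ u
      map_add' := fun u v => map_add Φ u v
      map_smul' := fun c u => map_smul Φ c u }
  let pz : E k d Z →ₗ[k] Z := { toFun := E.z, map_add' := fun _ _ => rfl, map_smul' := fun _ _ => rfl }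
  let pw : E k d Z →ₗ[k] Z ⊗[k] Z :=
    { toFun := E.w, map_add' := fun _ _ => rfl, map_smul' := fun _ _ => rfl }
  let pv : E k d Z →ₗ[k] (Fin d → k) :=
    { toFun := E.v, map_add' := fun _ _ => rfl, map_smul' := fun _ _ => rfl }
  have hof : ∀ i, Φ (FreeLieAlgebra.of k i) = ⟨τ i, 0, Pi.single i 1⟩ := fun i =>
    FreeLieAlgebra.lift_of_apply _ i
  have hbr : ∀ f g, Φ ⁅f, g⁆ = br Y (Φ f) (Φ g) := fun f g => LieHom.map_lie Φ f g
  refine ⟨pz.comp Φl, pw.comp Φl, pv.comp Φl, ⟨?_, ?_⟩, ?_, ?_, ?_, ?_⟩
  · intro i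
    change (Φ (FreeLieAlgebra.of k i)).v = _
    rw [hof]
  · intro f g
    change (Φ ⁅f, g⁆).v = _
    rw [hbr]; rfl
  · intro i
    change (Φ (FreeLieAlgebra.of k i)).z = _
    rw [hof]
  · intro i
    change (Φ (FreeLieAlgebra.of k i)).w = _
    rw [hof]
  · intro f g
    change (Φ ⁅f, g⁆).z = _
    rw [hbr]; rfl
  · intro f g
    change (Φ ⁅f, g⁆).w = _
    rw [hbr]; rfl

end Pool.Agent.HIL
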