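import Mathlib
import Pool.Agent.HIL.NegLA

/-!
# Consequences of finitely many relations
-/

noncomputable section

namespace Pool.Agent.HIL

open Function
open scoped TensorProduct

/-- induction on the free Lie algebra -/
theorem free_induction {k X : Type} [Field k] (S : LieSubalgebra k (FreeLieAlgebra k X))
    (h : ∀ i, FreeLieAlgebra.of k i ∈ S) (f : FreeLieAlgebra k X) : f ∈ S := by
  let g : FreeLieAlgebra k X →ₗ⁅k⁆ S := FreeLieAlgebra.lift k (fun i => ⟨FreeLieAlgebra.of k i, h i⟩)
  have h1 : S.incl.comp g = LieHom.id := by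
    refine FreeLieAlgebra.hom_ext (fun i => ?_)
    change S.incl (g (FreeLieAlgebra.of k i)) = FreeLieAlgebra.of k i
    have : g (FreeLieAlgebra.of k i) = ⟨FreeLieAlgebra.of k i, h i⟩ :=
      FreeLieAlgebra.lift_of_apply _ i
    rw [this]
    rfl
  have h2 : (g f : FreeLieAlgebra k X) = f := congrArg (fun φ => φ f) h1
  rw [← h2]
  exact (g f).2

theorem derived_succ_le {k L M : Type} [Field k] [LieRing L] [LieAlgebra k L] [AddCommGroup M]
    [Module k M] (j : ℕ) (φ : L →ₗ[k] M)
    (h : ∀ u ∈ LieAlgebra.derivedSeries k L j, ∀ v ∈ LieAlgebra.derivedSeries k L j,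
      φ ⁅u, v⁆ = 0) : ∀ u ∈ LieAlgebra.derivedSeries k L (j + 1), φ u = 0 := by
  intro u hu
  have h1 : LieAlgebra.derivedSeries k L (j + 1) =
      ⁅LieAlgebra.derivedSeries k L j, LieAlgebra.derivedSeries k L j⁆ := by
    rw [LieAlgebra.derivedSeries_def, LieAlgebra.derivedSeriesOfIdeal_succ]
  rw [h1, ← LieSubmodule.mem_toSubmodule, LieSubmodule.lieIdeal_oper_eq_linear_span'] at hu
  induction hu using Submodule.span_induction with
  | mem u hu =>
    obtain ⟨x, hx, y, hy, rfl⟩ := hu
    exact h x hx y hy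
  | zero => exact map_zero _
  | add u v _ _ hu hv => rw [map_add, hu, hv, add_zero]
  | smul c u _ hu => rw [map_smul, hu, smul_zero]

open LAx in
theorem lb_proof : Stmt_LB := by
  intro la k _ _ d Z _ _ Y hY ab hab ψ hψ R hR hRψ n hn
  obtain ⟨Φ₁, Φ₂, ab', hab', h1, h2, h3, h4⟩ := la k d Z Y hY (fun i => ψ (FreeLieAlgebra.of k i))
  let FD := FreeLieAlgebra k (Fin d)
  -- uniqueness
  have huniq : ∀ f : FD, ab' f = ab f ∧ Φ₁ f = ψ f := by
    let S : LieSubalgebra k FD :=
      { carrier := {f | ab' f = ab f ∧ Φ₁ f = ψ f}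
        zero_mem' := by simp
        add_mem' := by
          rintro f g ⟨ha, hb⟩ ⟨hc, hd⟩
          exact ⟨by rw [map_add, map_add, ha, hc], by rw [map_add, map_add, hb, hd]⟩
        smul_mem' := by
          rintro c f ⟨ha, hb⟩
          exact ⟨by rw [map_smul, map_smul, ha], by rw [map_smul, map_smul, hb]⟩
        lie_mem' := by
          rintro f g ⟨ha, hb⟩ ⟨hc, hd⟩
          exact ⟨by rw [hab'.2, hab.2], by rw [h3, hψ, ha, hb, hc, hd]⟩ }
    exact fun f => free_induction S (fun i => ⟨by rw [hab'.1, hab.1], h1 i⟩) f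
  have hbr : ∀ f g : FD, Φ₂ ⁅f, g⁆ = ψ f ⊗ₜ[k] ψ g - ψ g ⊗ₜ[k] ψ f +
      dplus (act Y (ab f)) (Φ₂ g) - dplus (act Y (ab g)) (Φ₂ f) := by
    intro f g
    rw [h4, (huniq f).1, (huniq g).1, (huniq f).2, (huniq g).2]
  -- derived series
  have d1 : ∀ u ∈ LieAlgebra.derivedSeries k FD 1, ab u = 0 :=
    derived_succ_le 0 ab fun u _ v _ => hab.2 u v
  have d2 : ∀ u ∈ LieAlgebra.derivedSeries k FD 2, ψ u = 0 :=
    derived_succ_le 1 ψ fun u hu v hv => by
      rw [hψ, d1 u hu, d1 v hv, act_zero]; simp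
  have d12 : LieAlgebra.derivedSeries k FD 2 ≤ LieAlgebra.derivedSeries k FD 1 :=
    LieAlgebra.derivedSeriesOfIdeal_antitone ⊤ (by norm_num)
  have d3 : ∀ u ∈ LieAlgebra.derivedSeries k FD 3, Φ₂ u = 0 :=
    derived_succ_le 2 Φ₂ fun u hu v hv => by
      rw [hbr, d1 u (d12 hu), d1 v (d12 hv), d2 u hu, d2 v hv, act_zero, dplus_zero]; simp
  have dn : ∀ u ∈ LieAlgebra.derivedSeries k FD n, Φ₂ u = 0 := fun u hu =>
    d3 u (LieAlgebra.derivedSeriesOfIdeal_antitone ⊤ hn hu)
  -- the claim
  have claim : ∀ N : ℕ, ∃ U : Submodule k (Z ⊗[k] Z), FiniteDimensional k U ∧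
      ∀ r ∈ LieSubmodule.lieSpan k FD R, Φ₂ r ∈ U ⊔ DN Y N := by
    intro N
    induction N with
    | zero =>
      refine ⟨⊥, inferInstance, fun r _ => ?_⟩
      simp [DN]
    | succ N ih =>
      obtain ⟨U, hU, hUN⟩ := ih
      haveI : FiniteDimensional k (Submodule.span k (Φ₂ '' R)) :=
        FiniteDimensional.span_of_finite k (hR.image _)
      haveI : ∀ i, FiniteDimensional k (U.map (dplus (Y i))) := fun i => inferInstance
      let U' : Submodule k (Z ⊗[k] Z) := Submodule.span k (Φ₂ '' R) ⊔ ⨆ i, U.map (dplus (Y i))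
      refine ⟨U', inferInstance, ?_⟩
      set W : Submodule k (Z ⊗[k] Z) := U' ⊔ DN Y (N + 1) with hW
      have hx : ∀ i, ∀ r ∈ LieSubmodule.lieSpan k FD R, Φ₂ ⁅(FreeLieAlgebra.of k i : FD), r⁆ ∈ W := by
        intro i r hr
        rw [hbr, hRψ r hr, hab.1, h2, act_single]
        simp only [TensorProduct.tmul_zero, TensorProduct.zero_tmul, sub_zero, zero_add, map_zero]
        obtain ⟨u, hu, t, ht, hut⟩ := Submodule.mem_sup.1 (hUN r hr)
        rw [← hut, map_add]
        refine W.add_mem ?_ ?_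
        · refine Submodule.mem_sup_left (Submodule.mem_sup_right ?_)
          exact Submodule.mem_iSup_of_mem i (Submodule.mem_map_of_mem hu)
        · refine Submodule.mem_sup_right ?_
          exact Submodule.mem_iSup_of_mem i (Submodule.mem_map_of_mem ht)
      have hf : ∀ f : FD, ∀ r ∈ LieSubmodule.lieSpan k FD R, Φ₂ ⁅f, r⁆ ∈ W := by
        let S : LieSubalgebra k FD :=
          { carrier := {f | ∀ r ∈ LieSubmodule.lieSpan k FD R, Φ₂ ⁅f, r⁆ ∈ W}
            zero_mem' := by intro r _; rw [zero_lie, map_zero]; exact W.zero_mem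
            add_mem' := by
              intro f g hf hg r hr
              rw [add_lie, map_add]
              exact W.add_mem (hf r hr) (hg r hr)
            smul_mem' := by
              intro c f hf r hr
              rw [smul_lie, map_smul]
              exact W.smul_mem _ (hf r hr)
            lie_mem' := by
              intro f g hf hg r hr
              rw [lie_lie, map_sub]
              exact W.sub_mem (hf _ (LieSubmodule.lie_mem _ hr)) (hg _ (LieSubmodule.lie_mem _ hr)) }
        exact fun f => free_induction S hx f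
      let J : LieIdeal k FD :=
        { carrier := {r | r ∈ LieSubmodule.lieSpan k FD R ∧ Φ₂ r ∈ W}
          zero_mem' := ⟨Submodule.zero_mem _, by rw [map_zero]; exact W.zero_mem⟩
          add_mem' := by
            rintro f g ⟨ha, hb⟩ ⟨hc, hd⟩
            exact ⟨Submodule.add_mem _ ha hc, by rw [map_add]; exact W.add_mem hb hd⟩
          smul_mem' := by
            rintro c f ⟨ha, hb⟩
            exact ⟨Submodule.smul_mem _ c ha, by rw [map_smul]; exact W.smul_mem _ hb⟩
          lie_mem := by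
            rintro f r ⟨ha, hb⟩
            exact ⟨LieSubmodule.lie_mem _ ha, hf f r ha⟩ }
      have hJ : LieSubmodule.lieSpan k FD R ≤ J := by
        rw [LieSubmodule.lieSpan_le]
        intro r hr
        refine ⟨LieSubmodule.subset_lieSpan hr, ?_⟩
        exact Submodule.mem_sup_left (Submodule.mem_sup_left
          (Submodule.subset_span ⟨r, hr, rfl⟩))
      exact fun r hr => (hJ hr).2
  intro N
  obtain ⟨U, hU, hUN⟩ := claim N
  refine ⟨U, hU, ?_⟩
  intro u v hu hv huv
  obtain ⟨r, hr, f, hf, hrf⟩ := (LieSubmodule.mem_sup _ _ _).1 huv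
  have e1 := hbr u v
  rw [hu, hv, act_zero, dplus_zero, ← hrf, map_add, dn f hf] at e1
  simp only [add_zero, LinearMap.zero_apply, sub_zero] at e1
  rw [← e1]
  exact hUN r hr

end Pool.Agent.HIL
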